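import Pool.Agent.Helper69.SLN.Root

/-!
# Generation of a simple real Lie algebra by the simple restricted root spaces

`D` = the subalgebra generated by the root spaces of `± α_i`. For `φ = ∑ c_i α_i`, `c ≠ 0`, the weight space `V_φ` is in `D`: induction on `∑ c_i`.
If `V_φ ∩ D ≠ V_φ`, take `z ≠ 0` in `V_φ` orthogonal to `V_φ ∩ D` for `-κ(·, θ ·)`. For `x` of weight `α_i`, `u = θ [θ z, x]` has weight `φ - α_i`, so `u ∈ D`,
`κ([θ z, x], u) = κ(θ z, [x, u]) = 0`, so `[θ z, x] = 0`, `[z, θ x] = 0`. Then `|[x, z]|² = -|x|² |z|² φ(τ α_i)`... so `φ(τ α_i) ≤ 0` for all `i` and `φ(τ φ) ≤ 0`: contradiction.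
-/

set_option autoImplicit false

namespace Pool.Agent.Helper68.AE

open Pool.Agent.Helper96.SA Pool.Agent.Helper96.TO Pool.Agent.Helper69.SLN

variable {L : Type} [LieRing L] [LieAlgebra ℝ L] {N : ℕ} {θ : L ≃ₗ⁅ℝ⁆ L} {b : Module.Basis (Fin N) ℝ L} {A : Submodule ℝ L}

theorem ssm (a b : ℝ) (v : Module.Dual ℝ A) : (a - b) • v = a • v - b • v := sub_smul a b v

theorem asm (a b : ℝ) (v : Module.Dual ℝ A) : (a + b) • v = a • v + b • v := add_smul a b v

/-- the weight space -/
def VW (A : Submodule ℝ L) (φ : Module.Dual ℝ A) : Submodule ℝ L where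
  carrier := {x | Wv A φ x}
  add_mem' := fun {x y} hx hy a => by rw [lie_add, hx a, hy a, smul_add]
  zero_mem' := fun a => by rw [lie_zero, smul_zero]
  smul_mem' := fun c x hx => Wv.smul hx c

theorem mem_VW {φ : Module.Dual ℝ A} {x : L} : x ∈ VW A φ ↔ Wv A φ x := Iff.rfl

/-- the form `-κ(x, θ y)` -/
noncomputable def Bf (θ : L ≃ₗ⁅ℝ⁆ L) : LinearMap.BilinForm ℝ L :=
  -((killingForm ℝ L).compl₂ (θ : L →ₗ[ℝ] L))

theorem Bf_apply (x y : L) : Bf θ x y = -killingForm ℝ L x (θ y) := rfl

theorem Bf_symm (h : CartanBasis θ b) (x y : L) : Bf θ x y = Bf θ y x := by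
  rw [Bf_apply, Bf_apply, ← LieAlgebra.killingForm_of_equiv_apply θ x (θ y), h.invol]
  congr 1
  exact LieModule.traceForm_comm ℝ L L _ _

theorem Bf_pos (h : CartanBasis θ b) {x : L} (hx : x ≠ 0) : 0 < Bf θ x x := pos h hx

/-- a nonzero vector orthogonal to a smaller subspace -/
theorem exists_orth (h : CartanBasis θ b) {V W : Submodule ℝ L} (hWV : W ≤ V) (hne : ¬ V ≤ W) :
    ∃ z ∈ V, z ≠ 0 ∧ ∀ w ∈ W, killingForm ℝ L (θ z) w = 0 := by
  have hF : Module.Finite ℝ L := Module.Finite.of_basis b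
  have hrefl : (Bf θ).IsRefl := fun x y hxy => by rw [Bf_symm h, hxy]
  have hdis : Disjoint W ((Bf θ).orthogonal W) := by
    rw [Submodule.disjoint_def]
    intro x hx hx2
    by_contra hx0
    have h1 := Bf_pos h hx0
    have h2 : Bf θ x x = 0 := hx2 x hx
    rw [h2] at h1
    exact lt_irrefl _ h1
  have hc := (LinearMap.BilinForm.isCompl_orthogonal_iff_disjoint hrefl).2 hdis
  obtain ⟨v, hv, hvW⟩ := Set.not_subset.1 hne
  have hv2 : v ∈ W ⊔ (Bf θ).orthogonal W := by rw [hc.sup_eq_top]; exact Submodule.mem_top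
  obtain ⟨w, hw, z, hz, rfl⟩ := Submodule.mem_sup.1 hv2
  refine ⟨z, ?_, ?_, ?_⟩
  · have := Submodule.sub_mem _ hv (hWV hw)
    rwa [add_sub_cancel_left] at this
  · rintro rfl
    rw [add_zero] at hvW
    exact hvW hw
  · intro u hu
    have h1 : Bf θ u z = 0 := hz u hu
    rw [Bf_apply, neg_eq_zero] at h1
    rw [← h1]
    exact LieModule.traceForm_comm ℝ L L _ _

/-- the bracket of a root vector with its `θ`-image -/
theorem lie_theta (h : CartanBasis θ b) (hA : MaxFlat θ A) {τ : Module.Dual ℝ A ≃ₗ[ℝ] A}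
    (hτ : ∀ (φ : Module.Dual ℝ A) (a : A), killingForm ℝ L (τ φ : L) (a : L) = φ a) {φ : Module.Dual ℝ A} {x : L}
    (hx : Wv A φ x) : ⁅x, θ x⁆ = killingForm ℝ L x (θ x) • (τ φ : L) := by
  have h1 : Wv A 0 ⁅x, θ x⁆ := by
    have := hx.lie (hx.theta hA)
    rwa [add_neg_cancel] at this
  have h2 : ⁅x, θ x⁆ ∈ A := by
    refine hA.max _ ?_ ?_
    · rw [LieEquiv.map_lie, h.invol, ← lie_skew]
    · intro y hy
      rw [← lie_skew, h1 ⟨y, hy⟩, LinearMap.zero_apply, zero_smul, neg_zero]
  have h3 : (⟨⁅x, θ x⁆, h2⟩ : A) = killingForm ℝ L x (θ x) • τ φ := by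
    apply kA_injective h hA
    ext a
    rw [map_smul, LinearMap.smul_apply, kA_apply, kA_apply, hτ]
    change killingForm ℝ L ⁅x, θ x⁆ (a : L) = _
    have h4 : killingForm ℝ L ⁅x, θ x⁆ (a : L) = killingForm ℝ L x ⁅θ x, (a : L)⁆ :=
      LieModule.traceForm_apply_lie_apply ℝ L L x (θ x) (a : L)
    rw [h4, ← lie_skew, hx.theta hA a, LinearMap.neg_apply, neg_smul, neg_neg, map_smul, smul_eq_mul, smul_eq_mul,
      mul_comm]
  exact congrArg Subtype.val h3

/-- a lowest vector for a root has a nonpositive scalar product with it -/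
theorem low_le (h : CartanBasis θ b) (hA : MaxFlat θ A) {τ : Module.Dual ℝ A ≃ₗ[ℝ] A}
    (hτ : ∀ (φ : Module.Dual ℝ A) (a : A), killingForm ℝ L (τ φ : L) (a : L) = φ a) {α φ : Module.Dual ℝ A} {x z : L}
    (hx : Wv A α x) (hx0 : x ≠ 0) (hz : Wv A φ z) (hz0 : z ≠ 0) (hxz : ⁅z, θ x⁆ = 0) : φ (τ α) ≤ 0 := by
  have h1 : ⁅θ x, ⁅x, z⁆⁆ = -((killingForm ℝ L x (θ x) * φ (τ α)) • z) := by
    have e : ⁅θ x, z⁆ = 0 := by rw [← lie_skew, hxz, neg_zero]
    have e2 : ⁅θ x, x⁆ = -(killingForm ℝ L x (θ x) • (τ α : L)) := by rw [← lie_skew, lie_theta h hA hτ hx]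
    rw [leibniz_lie, e, lie_zero, add_zero, e2, neg_lie, smul_lie, hz (τ α), smul_smul]
  have h2 : killingForm ℝ L ⁅θ x, ⁅x, z⁆⁆ (θ z) = -killingForm ℝ L ⁅x, z⁆ ⁅θ x, θ z⁆ :=
    LieModule.traceForm_apply_lie_apply' ℝ L L (θ x) ⁅x, z⁆ (θ z)
  rw [h1, ← LieEquiv.map_lie, map_neg, map_smul, LinearMap.neg_apply, LinearMap.smul_apply, smul_eq_mul, neg_inj] at h2
  have hp1 := pos h hx0
  have hp2 := pos h hz0
  have h3 : killingForm ℝ L ⁅x, z⁆ (θ ⁅x, z⁆) ≤ 0 := by
    by_cases h0 : ⁅x, z⁆ = 0
    · rw [h0, map_zero, LinearMap.zero_apply]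
    · have := pos h h0
      linarith
  rw [← h2] at h3
  by_contra hcon
  push Not at hcon
  have h4 : 0 < killingForm ℝ L x (θ x) * φ (τ α) * killingForm ℝ L z (θ z) := by
    have : killingForm ℝ L x (θ x) * φ (τ α) * killingForm ℝ L z (θ z) =
        φ (τ α) * ((-killingForm ℝ L x (θ x)) * (-killingForm ℝ L z (θ z))) := by ring
    rw [this]
    positivity
  linarith

/-- the generators -/
def Sg {ι : Type*} (A : Submodule ℝ L) (al : ι → Module.Dual ℝ A) : Set L := {x : L | ∃ i, Wv A (al i) x ∨ Wv A (-al i) x}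

theorem Sg_neg {ι : Type*} (al : ι → Module.Dual ℝ A) : Sg A (fun i => -al i) = Sg A al := by
  ext x
  constructor
  · rintro ⟨i, h | h⟩
    · exact ⟨i, Or.inr h⟩
    · exact ⟨i, Or.inl (by rwa [neg_neg] at h)⟩
  · rintro ⟨i, h | h⟩
    · exact ⟨i, Or.inr (by rwa [neg_neg])⟩
    · exact ⟨i, Or.inl h⟩

theorem pos_mem (h : CartanBasis θ b) (hA : MaxFlat θ A) {τ : Module.Dual ℝ A ≃ₗ[ℝ] A}
    (hτ : ∀ (φ : Module.Dual ℝ A) (a : A), killingForm ℝ L (τ φ : L) (a : L) = φ a) {ι : Type*} [Fintype ι]
    {al : ι → Module.Dual ℝ A} (hl : LinearIndependent ℝ al) (hr : ∀ i, al i ∈ rootsL A)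
    (hp : ∀ φ ∈ rootsL A, ∃ c : ι → ℕ, φ = ∑ i, (c i : ℝ) • al i ∨ φ = -(∑ i, (c i : ℝ) • al i)) :
    ∀ (n : ℕ) (c : ι → ℕ), ∑ i, c i = n + 1 → ∀ z : L, Wv A (∑ i, (c i : ℝ) • al i) z →
      z ∈ LieSubalgebra.lieSpan ℝ L (Sg A al) := by
  classical
  set D := LieSubalgebra.lieSpan ℝ L (Sg A al) with hD
  have hSD : ∀ i x, Wv A (al i) x → x ∈ D := fun i x hx => LieSubalgebra.subset_lieSpan ⟨i, Or.inl hx⟩
  intro n
  induction n with
  | zero =>
    intro c hc z hz
    obtain ⟨i, hi⟩ : ∃ i, c i ≠ 0 := by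
      by_contra hcon
      push Not at hcon
      rw [Finset.sum_eq_zero (fun i _ => hcon i)] at hc
      omega
    have h1 : c = Pi.single i 1 := by
      have h2 : ∑ j, c j = c i + ∑ j ∈ Finset.univ.erase i, c j := (Finset.add_sum_erase _ _ (Finset.mem_univ i)).symm
      have h3 : ∑ j ∈ Finset.univ.erase i, c j = 0 := by omega
      have h4 : c i = 1 := by omega
      funext j
      by_cases hj : j = i
      · rw [hj, Pi.single_eq_same, h4]
      · rw [Pi.single_eq_of_ne hj]
        exact (Finset.sum_eq_zero_iff.1 h3) j (Finset.mem_erase.2 ⟨hj, Finset.mem_univ j⟩)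
    have h5 : ∑ j, (c j : ℝ) • al j = al i := by
      rw [Finset.sum_eq_single i]
      · rw [h1, Pi.single_eq_same, Nat.cast_one, one_smul]
      · intro j _ hj
        rw [h1, Pi.single_eq_of_ne hj, Nat.cast_zero, zero_smul]
      · intro hi
        exact absurd (Finset.mem_univ i) hi
    rw [h5] at hz
    exact hSD i z hz
  | succ n ih =>
    intro c hc
    set φ : Module.Dual ℝ A := ∑ i, (c i : ℝ) • al i with hφ
    have hφ0 : φ ≠ 0 := by
      intro h0
      have h1 := Fintype.linearIndependent_iff.1 hl (fun i => (c i : ℝ)) h0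
      have h2 : ∑ i, c i = 0 := Finset.sum_eq_zero fun i _ => by exact_mod_cast h1 i
      omega
    by_contra hcon
    have hne : ¬ VW A φ ≤ VW A φ ⊓ D.toSubmodule := fun hle => hcon fun z hz => (hle hz).2
    obtain ⟨z, hz, hz0, hzo⟩ := exists_orth h inf_le_left hne
    have hz' : Wv A φ z := hz
    have key : ∀ i, φ (τ (al i)) ≤ 0 := by
      intro i
      obtain ⟨-, x, hx0, hx⟩ := hr i
      have hx' : Wv A (al i) x := hx
      refine low_le h hA hτ hx' hx0 hz' hz0 ?_
      -- `[θ z, x] = 0`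
      have h1 : ⁅θ z, x⁆ = 0 := by
        by_contra h0
        have h2 := pos h h0
        have hu : Wv A (φ - al i) (θ ⁅θ z, x⁆) := by
          have := ((hz'.theta hA).lie hx').theta hA
          rwa [neg_add, neg_neg, ← sub_eq_add_neg] at this
        have huD : θ ⁅θ z, x⁆ ∈ D := by
          rcases Nat.eq_zero_or_pos (c i) with hci | hci
          · -- not a root
            have h3 : φ - al i ∉ rootsL A := by
              intro hroot
              obtain ⟨d, hd | hd⟩ := hp _ hroot
              · have h4 : ∑ j, ((c j : ℝ) - (Pi.single i (1 : ℝ) : ι → ℝ) j - d j) • al j = 0 := by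
                  simp only [ssm, Finset.sum_sub_distrib]
                  rw [← hφ, ← hd]
                  have : ∑ j, (Pi.single i (1 : ℝ) : ι → ℝ) j • al j = al i := by
                    rw [Finset.sum_eq_single i]
                    · rw [Pi.single_eq_same, one_smul]
                    · intro j _ hj
                      rw [Pi.single_eq_of_ne hj, zero_smul]
                    · intro hi
                      exact absurd (Finset.mem_univ i) hi
                  rw [this, sub_self]
                have h5 := Fintype.linearIndependent_iff.1 hl _ h4 i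
                simp only [Pi.single_eq_same, hci, Nat.cast_zero] at h5
                have : (0 : ℝ) ≤ d i := Nat.cast_nonneg _
                linarith
              · have h4 : ∑ j, ((c j : ℝ) - (Pi.single i (1 : ℝ) : ι → ℝ) j + d j) • al j = 0 := by
                  simp only [ssm, asm, Finset.sum_sub_distrib, Finset.sum_add_distrib]
                  rw [← hφ]
                  have : ∑ j, (Pi.single i (1 : ℝ) : ι → ℝ) j • al j = al i := by
                    rw [Finset.sum_eq_single i]
                    · rw [Pi.single_eq_same, one_smul]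
                    · intro j _ hj
                      rw [Pi.single_eq_of_ne hj, zero_smul]
                    · intro hi
                      exact absurd (Finset.mem_univ i) hi
                  rw [this, hd, neg_add_cancel]
                have h5 := Fintype.linearIndependent_iff.1 hl _ h4
                obtain ⟨j, hj⟩ : ∃ j, c j ≠ 0 := by
                  by_contra hc0
                  push Not at hc0
                  rw [Finset.sum_eq_zero (fun i _ => hc0 i)] at hc
                  omega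
                have hji : j ≠ i := by
                  rintro rfl
                  exact hj hci
                have h6 := h5 j
                simp only [Pi.single_eq_of_ne hji] at h6
                have h7 : (0 : ℝ) < c j := by
                  have : 0 < c j := Nat.pos_of_ne_zero hj
                  exact_mod_cast this
                have : (0 : ℝ) ≤ d j := Nat.cast_nonneg _
                linarith
            have h4 : φ - al i ≠ 0 := by
              intro h40
              have h5 : ∑ j, ((c j : ℝ) - (Pi.single i (1 : ℝ) : ι → ℝ) j) • al j = 0 := by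
                simp only [ssm, Finset.sum_sub_distrib]
                rw [← hφ]
                have : ∑ j, (Pi.single i (1 : ℝ) : ι → ℝ) j • al j = al i := by
                  rw [Finset.sum_eq_single i]
                  · rw [Pi.single_eq_same, one_smul]
                  · intro j _ hj
                    rw [Pi.single_eq_of_ne hj, zero_smul]
                  · intro hi
                    exact absurd (Finset.mem_univ i) hi
                rw [this, h40]
              have h6 := Fintype.linearIndependent_iff.1 hl _ h5 i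
              simp only [Pi.single_eq_same, hci, Nat.cast_zero] at h6
              linarith
            rw [hu.eq_zero h3 h4]
            exact zero_mem _
          · -- smaller height
            refine ih (fun j => c j - (Pi.single i 1 : ι → ℕ) j) ?_ _ ?_
            · have h2' : ∑ j, c j = c i + ∑ j ∈ Finset.univ.erase i, c j :=
                (Finset.add_sum_erase _ _ (Finset.mem_univ i)).symm
              have h3 : ∑ j, (c j - (Pi.single i 1 : ι → ℕ) j) =
                  (c i - 1) + ∑ j ∈ Finset.univ.erase i, c j := by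
                rw [← Finset.add_sum_erase _ _ (Finset.mem_univ i), Pi.single_eq_same]
                congr 1
                refine Finset.sum_congr rfl fun j hj => ?_
                rw [Pi.single_eq_of_ne (Finset.mem_erase.1 hj).1, Nat.sub_zero]
              omega
            · have h3 : ∑ j, ((c j - (Pi.single i 1 : ι → ℕ) j : ℕ) : ℝ) • al j = φ - al i := by
                rw [hφ, ← Finset.add_sum_erase _ _ (Finset.mem_univ i), ← Finset.add_sum_erase _ (fun j => (c j : ℝ) • al j) (Finset.mem_univ i),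
                  Pi.single_eq_same, Nat.cast_sub hci, Nat.cast_one, ssm, one_smul]
                have h4 : ∑ j ∈ Finset.univ.erase i, ((c j - (Pi.single i 1 : ι → ℕ) j : ℕ) : ℝ) • al j =
                    ∑ j ∈ Finset.univ.erase i, (c j : ℝ) • al j := by
                  refine Finset.sum_congr rfl fun j hj => ?_
                  rw [Pi.single_eq_of_ne (Finset.mem_erase.1 hj).1, Nat.sub_zero]
                rw [h4]
                abel
              rw [h3]
              exact hu
        have h5 : killingForm ℝ L ⁅θ z, x⁆ (θ ⁅θ z, x⁆) = killingForm ℝ L (θ z) ⁅x, θ ⁅θ z, x⁆⁆ :=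
          LieModule.traceForm_apply_lie_apply ℝ L L (θ z) x _
        have h6 : killingForm ℝ L (θ z) ⁅x, θ ⁅θ z, x⁆⁆ = 0 := by
          apply hzo
          refine ⟨?_, LieSubalgebra.lie_mem _ (hSD i x hx') huD⟩
          show Wv A φ _
          have := hx'.lie hu
          rwa [add_sub_cancel] at this
        rw [h5, h6, neg_zero] at h2
        exact lt_irrefl _ h2
      have h7 : θ ⁅θ z, x⁆ = ⁅z, θ x⁆ := by rw [LieEquiv.map_lie, h.invol]
      rw [← h7, h1, map_zero]
    have h1 := tau_pos hτ h hA hφ0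
    have h2 : φ (τ φ) = ∑ i, (c i : ℝ) * φ (τ (al i)) := by
      conv_lhs => rw [hφ]
      rw [← hφ, map_sum]
      simp only [map_smul, map_sum, smul_eq_mul]
    rw [h2] at h1
    have h3 : ∑ i, (c i : ℝ) * φ (τ (al i)) ≤ 0 :=
      Finset.sum_nonpos fun i _ => mul_nonpos_of_nonneg_of_nonpos (Nat.cast_nonneg _) (key i)
    linarith

/-- The simple restricted root spaces and their opposites generate `L`. -/
theorem gen_simple [LieAlgebra.IsSimple ℝ L] (h : CartanBasis θ b) (hA : MaxFlat θ A) {τ : Module.Dual ℝ A ≃ₗ[ℝ] A}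
    (hτ : ∀ (φ : Module.Dual ℝ A) (a : A), killingForm ℝ L (τ φ : L) (a : L) = φ a) {ι : Type*} [Fintype ι] [Nonempty ι]
    {al : ι → Module.Dual ℝ A} (hl : LinearIndependent ℝ al) (hr : ∀ i, al i ∈ rootsL A)
    (hp : ∀ φ ∈ rootsL A, ∃ c : ι → ℕ, φ = ∑ i, (c i : ℝ) • al i ∨ φ = -(∑ i, (c i : ℝ) • al i)) :
    LieSubalgebra.lieSpan ℝ L {x : L | ∃ i, Wv A (al i) x ∨ Wv A (-al i) x} = ⊤ := by
  have hne : (rootsL A).Nonempty := ⟨_, hr (Classical.arbitrary ι)⟩
  have h1 := pos_mem h hA hτ hl hr hp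
  have hl' : LinearIndependent ℝ (fun i => -al i) := by
    rw [Fintype.linearIndependent_iff] at hl ⊢
    intro g hg i
    refine hl g ?_ i
    rw [← neg_eq_zero, ← Finset.sum_neg_distrib, ← hg]
    exact Finset.sum_congr rfl fun j _ => by rw [smul_neg]
  have hr' : ∀ i, -al i ∈ rootsL A := by
    intro i
    obtain ⟨h0, x, hx0, hx⟩ := hr i
    exact ⟨neg_ne_zero.2 h0, θ x, fun h2 => hx0 (by rw [← h.invol x, h2, map_zero]), Wv.theta hA hx⟩
  have hsum : ∀ c : ι → ℕ, ∑ i, (c i : ℝ) • -al i = -∑ i, (c i : ℝ) • al i := by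
    intro c
    rw [← Finset.sum_neg_distrib]
    exact Finset.sum_congr rfl fun j _ => by rw [smul_neg]
  have hp' : ∀ φ ∈ rootsL A, ∃ c : ι → ℕ, φ = ∑ i, (c i : ℝ) • -al i ∨ φ = -(∑ i, (c i : ℝ) • -al i) := by
    intro φ hφ
    obtain ⟨c, hc | hc⟩ := hp φ hφ
    · exact ⟨c, Or.inr (by rw [hsum, neg_neg]; exact hc)⟩
    · exact ⟨c, Or.inl (by rw [hsum]; exact hc)⟩
  have h2 := pos_mem h hA hτ hl' hr' hp'
  rw [Sg_neg] at h2
  have hroot : ∀ φ ∈ rootsL A, ∀ z, Wv A φ z → z ∈ LieSubalgebra.lieSpan ℝ L (Sg A al) := by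
    intro φ hφ z hz
    obtain ⟨c, hc⟩ := hp φ hφ
    obtain ⟨n, hn⟩ : ∃ n, ∑ i, c i = n + 1 := by
      rcases Nat.eq_zero_or_pos (∑ i, c i) with h0 | h0
      · exfalso
        apply hφ.1
        have h3 : ∀ i, c i = 0 := fun i => Finset.sum_eq_zero_iff.1 h0 i (Finset.mem_univ i)
        have h4 : ∑ i, (c i : ℝ) • al i = 0 :=
          Finset.sum_eq_zero fun i _ => by rw [h3 i, Nat.cast_zero, zero_smul]
        rcases hc with hc | hc
        · rw [hc, h4]
        · rw [hc, h4, neg_zero]
      · exact ⟨_, (Nat.succ_pred_eq_of_pos h0).symm⟩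
    rcases hc with hc | hc
    · exact h1 n c hn z (by rw [← hc]; exact hz)
    · exact h2 n c hn z (by rw [hsum, ← hc]; exact hz)
  have h3 : Submodule.span ℝ (gensW A) ≤ (LieSubalgebra.lieSpan ℝ L (Sg A al)).toSubmodule := by
    rw [Submodule.span_le]
    rintro z (⟨φ, hφ, hz⟩ | ⟨φ, hφ, x, y, hx, hy, rfl⟩)
    · exact hroot φ hφ z hz
    · refine LieSubalgebra.lie_mem _ (hroot φ hφ x hx) ?_
      by_cases hy0 : y = 0
      · rw [hy0]
        exact zero_mem _
      · exact hroot (-φ) ⟨neg_ne_zero.2 hφ.1, y, hy0, hy⟩ y hy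
  rw [gens_top h hA hne] at h3
  rw [eq_top_iff]
  intro x _
  exact h3 Submodule.mem_top

end Pool.Agent.Helper68.AE
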