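import Pool.Agent.Helper68.AE.G2M

/-!
# The edge of type `G_2`: from the Cartan integers, all tensors, and the dimension of the sum
-/

set_option autoImplicit false

namespace Pool.Agent.Helper68.AE

open Pool.Agent.Helper96.SA Pool.Agent.Helper96.TO Pool.Agent.Helper69.SLN Pool.Agent.Helper77.TZ2 Pool.Agent.Helper77.LA
  Pool.Agent.Helper77.ST Pool.Agent.Helper95.AE Pool.Agent.Helper25.AE Pool.Agent.Helper77.AE

variable {L : Type} [LieRing L] [LieAlgebra ℝ L] {N : ℕ} {θ : L ≃ₗ⁅ℝ⁆ L} {b : Module.Basis (Fin N) ℝ L} {A : Submodule ℝ L}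
  {τ : Module.Dual ℝ A ≃ₗ[ℝ] A} {α β : Module.Dual ℝ A}

/-- The relations follow from the Cartan integers. -/
theorem G2E.of_cartan (h : CartanBasis θ b) (hA : MaxFlat θ A)
    (hτ : ∀ (φ : Module.Dual ℝ A) (a : A), killingForm ℝ L (τ φ : L) (a : L) = φ a) (ra : α ∈ rootsL A) (rb : β ∈ rootsL A)
    (d : β - α ∉ rootsL A) (ba : 2 * β (τ α) = -3 * α (τ α)) (ab : 2 * α (τ β) = -β (τ β)) : G2E θ b A τ α β := by
  have e1 : α (τ β) = β (τ α) := tau_symm hτ α β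
  have p : 0 < α (τ α) := tau_pos hτ h hA ra.1
  refine ⟨h, hA, hτ, ra, rb, d, ?_, ba, by linarith⟩
  intro h0
  obtain ⟨n, hn, -⟩ := refl h hA hτ rb h0
  rw [map_add τ, map_add β, LinearMap.add_apply, map_add α] at hn
  have h3 : (2 * (n : ℝ) + 3) * (2 * α (τ α)) = 0 := by
    linear_combination 2 * ba - hn
  rcases mul_eq_zero.1 h3 with h4 | h4
  · have h5 : (2 * n + 3 : ℤ) = 0 := by exact_mod_cast h4
    omega
  · linarith

/-- The sum has the dimension of the ends. -/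
theorem G2E.m2 (c : G2E θ b A τ α β) : Module.finrank ℝ (rsp A (α + β)) < 2 * Module.finrank ℝ (rsp A α) ∧
    Module.finrank ℝ (rsp A (α + β)) < 2 * Module.finrank ℝ (rsp A β) := by
  have hF : Module.Finite ℝ L := Module.Finite.of_basis b
  obtain ⟨-, x0, hx0, hx⟩ := c.ra
  have hV : 0 < Module.finrank ℝ (rsp A α) := by
    have : Nontrivial (rsp A α) := ⟨⟨⟨x0, hx⟩, 0, fun h => hx0 (congrArg Subtype.val h)⟩⟩
    exact Module.finrank_pos
  rw [c.finU, c.finW.1]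
  constructor <;> omega

variable {L' : Type} [LieRing L'] [LieAlgebra ℝ L'] {N' : ℕ} {θ' : L' ≃ₗ⁅ℝ⁆ L'} {b' : Module.Basis (Fin N') ℝ L'}
  {A' : Submodule ℝ L'} {τ' : Module.Dual ℝ A' ≃ₗ[ℝ] A'} {α' β' : Module.Dual ℝ A'}

/-- Uniqueness of the edge of type `G_2`, with all four tensors. -/
theorem g2_tc4 (c : G2E θ b A τ α β) (c' : G2E θ' b' A' τ' α' β')
    (hd : Module.finrank ℝ (rsp A α) = Module.finrank ℝ (rsp A' α')) :
    ∃ F G : L →ₗ[ℝ] L', IsoOn θ θ' (α (τ α)) (α' (τ' α')) α α' F ∧ IsoOn θ θ' (β (τ β)) (β' (τ' β')) β β' G ∧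
      TC θ θ' A (β (τ β)) (β' (τ' β')) α β F G ∧ TC θ θ' A (α (τ α)) (α' (τ' α')) β α G F ∧
      TC θ θ' A (α (τ α)) (α' (τ' α')) α α F F ∧ TC θ θ' A (β (τ β)) (β' (τ' β')) β β G G := by
  obtain ⟨F, G, hF, hG, h1, h2⟩ := g2_tc c c' hd
  have a0 : ∀ {φ : Module.Dual ℝ A}, φ ∈ rootsL A → φ + φ ≠ 0 := fun {φ} hφ h0 => hφ.1 (by
    have : φ = (1 / 2 : ℝ) • (φ + φ) := by module
    rw [this, h0, smul_zero])
  have a0' : ∀ {φ : Module.Dual ℝ A'}, φ ∈ rootsL A' → φ + φ ≠ 0 := fun {φ} hφ h0 => hφ.1 (by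
    have : φ = (1 / 2 : ℝ) • (φ + φ) := by module
    rw [this, h0, smul_zero])
  exact ⟨F, G, hF, hG, h1, h2, tc_self (a0 c.ra) c.aa (a0' c'.ra) c'.aa hF.mem, tc_self (a0 c.rb) c.b2 (a0' c'.rb) c'.b2 hG.mem⟩

end Pool.Agent.Helper68.AE
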