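import Pool.Agent.Helper95.AE.BC
import Pool.Agent.Helper95.AE.Mod

/-!
# The linear algebra of type `BC_2`, `dim Z = 3`, `dim W = 4`: the quaternionic case

`BCd.lt`: `dim Z < dim W`. `BCd.std3`: the normal form, `BCd.uniq3`: uniqueness.
-/

set_option autoImplicit false
set_option linter.unusedSectionVars false

namespace Pool.Agent.Helper68.AE

open Module Pool.Agent.Helper95.AE

open scoped RealInnerProductSpace

variable {V W U T Z : Type*} [NormedAddCommGroup V] [InnerProductSpace ℝ V] [NormedAddCommGroup W] [InnerProductSpace ℝ W]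
  [NormedAddCommGroup U] [InnerProductSpace ℝ U] [NormedAddCommGroup T] [InnerProductSpace ℝ T] [NormedAddCommGroup Z] [InnerProductSpace ℝ Z]
  {m : V →ₗ[ℝ] W →ₗ[ℝ] U} {n : V →ₗ[ℝ] T →ₗ[ℝ] U} {I : Z →ₗ[ℝ] V →ₗ[ℝ] V} {K : Z →ₗ[ℝ] W →ₗ[ℝ] T} {c : V →ₗ[ℝ] V →ₗ[ℝ] Z}

theorem skew (hB : BCd m n I K c) (ζ : Z) (x y : V) : ⟪I ζ x, y⟫ = -⟪x, I ζ y⟫ := by
  have e1 := hB.cI ζ x y
  have e2 := hB.cI ζ y x
  have e3 := real_inner_comm x (I ζ y)
  rw [hB.cs x y, inner_neg_right] at e1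
  linarith

theorem skew_self (hB : BCd m n I K c) (ζ : Z) (x : V) : ⟪I ζ x, x⟫ = 0 := by
  have h1 := skew hB ζ x x
  have h2 := real_inner_comm x (I ζ x)
  linarith

theorem inner_I (hB : BCd m n I K c) (ζ : Z) (x y : V) : ⟪I ζ x, I ζ y⟫ = ‖ζ‖ ^ 2 * ⟪x, y⟫ :=
  pol_right (m := I) hB.nI ζ x y

theorem pol_I (hB : BCd m n I K c) (ζ η : Z) (x : V) : ⟪I ζ x, I η x⟫ = ⟪ζ, η⟫ * ‖x‖ ^ 2 :=
  pol_left (m := I) hB.nI ζ η x

theorem I_sq (hB : BCd m n I K c) (ζ : Z) (x : V) : I ζ (I ζ x) = -(‖ζ‖ ^ 2 • x) := by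
  refine ext_inner_right ℝ fun y => ?_
  rw [skew hB, inner_I hB, inner_neg_left, inner_smul_left, conj_trivial]

theorem pol_I2 (hB : BCd m n I K c) (ζ η : Z) (x y : V) : ⟪I ζ x, I η y⟫ + ⟪I ζ y, I η x⟫ = 2 * ⟪ζ, η⟫ * ⟪x, y⟫ :=
  pol_both (m := I) hB.nI ζ η x y

theorem I_anti (hB : BCd m n I K c) {ζ η : Z} (h : ⟪ζ, η⟫ = 0) (x : V) : I ζ (I η x) = -I η (I ζ x) := by
  refine ext_inner_right ℝ fun y => ?_
  have h1 := pol_I2 hB ζ η x y
  have h3 := real_inner_comm (I ζ y) (I η x)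
  have h4 := skew hB ζ (I η x) y
  have h5 := skew hB η (I ζ x) y
  rw [inner_neg_left]
  rw [h, mul_zero, zero_mul] at h1
  linarith

variable [FiniteDimensional ℝ V] [FiniteDimensional ℝ W] [FiniteDimensional ℝ U] [FiniteDimensional ℝ T] [FiniteDimensional ℝ Z]

theorem finrank_T [Nontrivial V] (hB : BCd m n I K c) : finrank ℝ T = finrank ℝ W := by
  obtain ⟨x, hx⟩ := exists_norm_eq V zero_le_one
  refine le_antisymm ?_ ?_
  · exact finrank_le_of_factor (f := n x) (g := m x) (inj_of_norm one_ne_zero fun t => by rw [hB.nn, hx]) fun t => hB.f2 x t hx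
  · exact finrank_le_of_factor (f := m x) (g := n x) (inj_of_norm one_ne_zero fun t => by rw [hB.nm, hx]) fun z => hB.f1 x z hx

/-- The vector `t` with `n x t = m x z` is orthogonal to `K Z z`. -/
theorem exists_t (hB : BCd m n I K c) {x : V} (hx : ‖x‖ = 1) (z : W) :
    ∃ t, n x t = m x z ∧ ‖t‖ = ‖z‖ ∧ ∀ ζ, ⟪K ζ z, t⟫ = 0 := by
  obtain ⟨t, ht⟩ := hB.f1 x z hx
  refine ⟨t, ht, ?_, fun ζ => ?_⟩
  · have h1 := hB.nn x t
    rw [ht, hB.nm, hx, one_mul, one_mul] at h1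
    exact h1.symm
  · have h1 := pol_right hB.nn x (K ζ z) t
    rw [hx, one_pow, one_mul, ht, hB.nIK, inner_neg_left, pol_left hB.nm, skew_self hB] at h1
    linarith

/-- The range of `K · z0`. -/
theorem finrank_orth (hB : BCd m n I K c) {z0 : W} (hz0 : ‖z0‖ = 1) :
    finrank ℝ (K.flip z0).range + finrank ℝ (K.flip z0).rangeᗮ = finrank ℝ T ∧ finrank ℝ (K.flip z0).range = finrank ℝ Z := by
  refine ⟨Submodule.finrank_add_finrank_orthogonal _, LinearMap.finrank_range_of_inj ?_⟩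
  exact inj_of_norm one_ne_zero fun ζ => by rw [LinearMap.flip_apply, hB.nK, hz0, mul_one, one_mul]

theorem mem_orth {z0 : W} {t : T} : t ∈ (K.flip z0).rangeᗮ ↔ ∀ ζ, ⟪K ζ z0, t⟫ = 0 := by
  rw [Submodule.mem_orthogonal]
  constructor
  · intro h ζ
    exact h _ ⟨ζ, rfl⟩
  · rintro h _ ⟨ζ, rfl⟩
    exact h ζ

/-- The double root is smaller. -/
theorem finrank_lt [Nontrivial V] (hB : BCd m n I K c) (hW : 0 < finrank ℝ W) : finrank ℝ Z < finrank ℝ W := by
  have hWn : Nontrivial W := Module.finrank_pos_iff.1 hW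
  obtain ⟨x, hx⟩ := exists_norm_eq V zero_le_one
  obtain ⟨z0, hz0⟩ := exists_norm_eq W zero_le_one
  obtain ⟨t, -, ht, ht2⟩ := exists_t hB hx z0
  obtain ⟨h1, h2⟩ := finrank_orth hB hz0
  have h3 : 0 < finrank ℝ (K.flip z0).rangeᗮ := by
    have : Nontrivial (K.flip z0).rangeᗮ := ⟨⟨⟨t, mem_orth.2 ht2⟩, 0, fun h => by
      have h4 : t = 0 := congrArg Subtype.val h
      rw [h4, norm_zero, hz0] at ht
      exact zero_ne_one ht⟩⟩
    exact Module.finrank_pos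
  rw [finrank_T hB] at h1
  omega

/-- If the codimension is one, there is a unit vector `t` with `n x t = m x z0` for all `x`. -/
theorem exists_t0 [Nontrivial V] (hB : BCd m n I K c) (hd : finrank ℝ W = finrank ℝ Z + 1) {z0 : W} (hz0 : ‖z0‖ = 1) :
    ∃ t, ∀ x, n x t = m x z0 := by
  obtain ⟨x0, hx0⟩ := exists_norm_eq V zero_le_one
  obtain ⟨t, ht, htn, ht2⟩ := exists_t hB hx0 z0
  obtain ⟨h1, h2⟩ := finrank_orth hB hz0
  rw [finrank_T hB] at h1
  have h3 : finrank ℝ (K.flip z0).rangeᗮ = 1 := by omega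
  have ht0 : (⟨t, mem_orth.2 ht2⟩ : (K.flip z0).rangeᗮ) ≠ 0 := fun h => by
    have h4 : t = 0 := congrArg Subtype.val h
    rw [h4, norm_zero, hz0] at htn
    exact zero_ne_one htn
  have h4 := (finrank_eq_one_iff_of_nonzero' _ ht0).1 h3
  have key : ∀ x, ‖x‖ = 1 → n x t = m x z0 ∨ n x t = -m x z0 := by
    intro x hx
    obtain ⟨s, hs, hsn, hs2⟩ := exists_t hB hx z0
    obtain ⟨r, hr⟩ := h4 ⟨s, mem_orth.2 hs2⟩
    have hr' : r • t = s := congrArg Subtype.val hr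
    have hr2 : |r| = 1 := by
      rw [← hr', norm_smul, htn, hz0, mul_one, Real.norm_eq_abs] at hsn
      exact hsn
    rcases abs_eq (zero_le_one (α := ℝ)) |>.1 hr2 with h5 | h5
    · left
      rw [← hs, ← hr', h5, one_smul]
    · right
      rw [← hs, ← hr', h5, neg_one_smul, map_neg, neg_neg]
  have key2 : ∀ x, n x t = m x z0 ∨ n x t = -m x z0 := by
    intro x
    by_cases hx : x = 0
    · left
      rw [hx, map_zero, map_zero, LinearMap.zero_apply, LinearMap.zero_apply]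
    have hx' : ‖x‖ ≠ 0 := norm_ne_zero_iff.2 hx
    have h5 := key (‖x‖⁻¹ • x) (by rw [norm_smul, norm_inv, norm_norm, inv_mul_cancel₀ hx'])
    rw [map_smul, map_smul, LinearMap.smul_apply, LinearMap.smul_apply, ← smul_neg] at h5
    rcases h5 with h5 | h5
    · exact Or.inl (smul_right_injective _ (inv_ne_zero hx') h5)
    · exact Or.inr (smul_right_injective _ (inv_ne_zero hx') h5)
  have hinj : ∀ x, m x z0 = 0 → x = 0 := by
    intro x hx
    have h5 := hB.nm x z0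
    rw [hx, norm_zero, hz0, mul_one] at h5
    exact norm_eq_zero.1 h5.symm
  have hneg : ∀ u : U, u = -u → u = 0 := by
    intro u hu
    have h5 : (2 : ℝ) • u = 0 := by
      rw [two_smul]
      nth_rewrite 1 [hu]
      rw [neg_add_cancel]
    exact (smul_eq_zero.1 h5).resolve_left two_ne_zero
  refine ⟨t, fun x => (key2 x).elim id fun h5 => ?_⟩
  have h6 := key2 (x + x0)
  rw [map_add, map_add, LinearMap.add_apply, LinearMap.add_apply, h5, ht] at h6
  rcases h6 with h6 | h6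
  · have h7 : m x z0 = 0 := hneg _ (add_right_cancel h6).symm
    rw [h5, h7, neg_zero]
  · exfalso
    have h7 : m x0 z0 = 0 := by
      rw [neg_add] at h6
      exact hneg _ (add_left_cancel h6)
    have h8 := hinj _ h7
    rw [h8, norm_zero] at hx0
    exact zero_ne_one hx0

/-- **The normal form** for `dim W = 4`, `dim Z = 3`. -/
theorem std3 [Nontrivial V] (hB : BCd m n I K c) (hd : finrank ℝ U = finrank ℝ V) (hW : finrank ℝ W = 4) (hZ : finrank ℝ Z = 3) :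
    ∃ (e : OrthonormalBasis (Fin 3) ℝ Z) (w : OrthonormalBasis (Fin 4) ℝ W) (J : W →ₗ[ℝ] V →ₗ[ℝ] V),
      (∀ x y z z', ⟪m x z, m y z'⟫ = ⟪J z x, J z' y⟫) ∧ (∀ x, J (w 0) x = x) ∧ (∀ x, J (w 1) x = I (e 0) x) ∧
        (∀ x, J (w 2) x = I (e 1) x) ∧ (∀ x, J (w 3) x = I (e 2) x) ∧ ∀ x, I (e 0) (I (e 1) x) = I (e 2) x := by
  have hWn : Nontrivial W := Module.finrank_pos_iff.1 (by omega : 0 < finrank ℝ W)
  obtain ⟨x0, hx0⟩ := exists_norm_eq V zero_le_one
  obtain ⟨z0, hz0⟩ := exists_norm_eq W zero_le_one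
  obtain ⟨C, J, hC, hJ, hCJ⟩ := exists_nm hB.nm hd hz0
  obtain ⟨t, ht⟩ := exists_t0 hB (by omega) hz0
  have hin : ∀ x y z z', ⟪m x z, m y z'⟫ = ⟪J z x, J z' y⟫ := fun x y z z' => by
    rw [← hCJ, ← hCJ, C.inner_map_map]
  -- `J z = I (Zt z)` for `z ⟂ z0`
  have hJI : ∀ z, ⟪z, z0⟫ = 0 → ∃ a, ‖a‖ = ‖z‖ ∧ ∀ x, J z x = I a x := by
    intro z hz
    have h1 : ∀ x, J z x = I (LinearMap.adjoint (K.flip z) t) x := by
      intro x
      refine ext_inner_left ℝ fun y => ?_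
      have h2 := hB.sy y x z t
      rw [ht, ht, hin, hin, hJ.one, hJ.one] at h2
      have h3 := hJ.skew hz y x
      have h4 := real_inner_comm x (J z y)
      have h5 : ⟪t, K (c y x) z⟫ = ⟪LinearMap.adjoint (K.flip z) t, c y x⟫ := by
        rw [LinearMap.adjoint_inner_left]
        rfl
      have h6 := hB.cI (LinearMap.adjoint (K.flip z) t) y x
      have h7 := skew hB (LinearMap.adjoint (K.flip z) t) y x
      rw [h5] at h2
      linarith
    refine ⟨_, ?_, h1⟩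
    have h2 := hJ.nrm z x0
    rw [h1, hB.nI, hx0, mul_one, mul_one] at h2
    exact h2
  obtain ⟨w, hw0⟩ := exists_basis_first (k := 3) hW hz0
  have hww : ∀ i j, ⟪w i, w j⟫ = if i = j then 1 else 0 := fun i j => orthonormal_iff_ite.1 w.orthonormal i j
  obtain ⟨a1, ha1, hI1⟩ := hJI (w 1) (by rw [← hw0, hww, if_neg (by decide)])
  obtain ⟨a2, ha2, hI2⟩ := hJI (w 2) (by rw [← hw0, hww, if_neg (by decide)])
  obtain ⟨a3', ha3', hI3'⟩ := hJI (w 3) (by rw [← hw0, hww, if_neg (by decide)])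
  rw [w.norm_eq_one] at ha1 ha2 ha3'
  -- the vectors are orthogonal
  have hor : ∀ {z z' : W} {a a' : Z}, ⟪z, z'⟫ = 0 → (∀ x, J z x = I a x) → (∀ x, J z' x = I a' x) → ⟪a, a'⟫ = 0 := by
    intro z z' a a' hzz h1 h2
    have h3 := hJ.inner_both z z' x0 x0
    rw [h1, h2, pol_I hB, hx0, hzz] at h3
    linarith
  have h12 := hor (by rw [hww, if_neg (by decide)]) hI1 hI2
  have h13 := hor (by rw [hww, if_neg (by decide)]) hI1 hI3'
  have h23 := hor (by rw [hww, if_neg (by decide)]) hI2 hI3'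
  obtain ⟨ζ, hζ⟩ := hB.der z0 (w 1) hz0 (by rw [← hw0, hww, if_neg (by decide)]) (J (w 1)) (fun x => by rw [← hC, hCJ]) a2
  have h3 : ∀ x, I a1 (I a2 x) = I ((1 / 2 : ℝ) • ζ) x := by
    intro x
    have h4 := hζ x
    rw [hI1, hI1, I_anti hB h12] at h4
    rw [map_smul, LinearMap.smul_apply, I_anti hB h12]
    have h5 : I ζ x = -((2 : ℝ) • I a2 (I a1 x)) := by
      have h6 : I ζ x = -I a2 (I a1 x) - I a2 (I a1 x) := by
        rw [h4]
        abel
      rw [h6, two_smul]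
      abel
    rw [h5, smul_neg, smul_smul]
    norm_num
  obtain ⟨a3, h3⟩ : ∃ a3, ∀ x, I a1 (I a2 x) = I a3 x := ⟨_, h3⟩
  have ha3 : ‖a3‖ = 1 := by
    have h4 := hB.nI a3 x0
    rw [← h3, hB.nI, hB.nI, ha1, ha2, hx0] at h4
    linarith
  have h13' : ⟪a1, a3⟫ = 0 := by
    have h4 := pol_I hB a1 a3 x0
    rw [← h3, inner_I hB, hx0, real_inner_comm, skew_self hB] at h4
    linarith
  have h23' : ⟪a2, a3⟫ = 0 := by
    have h4 := pol_I hB a2 a3 x0
    rw [← h3, hx0, real_inner_comm, skew_self hB] at h4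
    linarith
  have hort : Orthonormal ℝ (![a1, a2, a3] : Fin 3 → Z) := by
    rw [orthonormal_iff_ite]
    have c12 := real_inner_comm a1 a2
    have c13 := real_inner_comm a1 a3
    have c23 := real_inner_comm a2 a3
    intro i j
    fin_cases i <;> fin_cases j
    · change ⟪a1, a1⟫ = _
      rw [real_inner_self_eq_norm_sq, ha1]
      simp
    · change ⟪a1, a2⟫ = _
      rw [h12]
      simp
    · change ⟪a1, a3⟫ = _
      rw [h13']
      simp
    · change ⟪a2, a1⟫ = _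
      rw [c12, h12]
      simp
    · change ⟪a2, a2⟫ = _
      rw [real_inner_self_eq_norm_sq, ha2]
      simp
    · change ⟪a2, a3⟫ = _
      rw [h23']
      simp
    · change ⟪a3, a1⟫ = _
      rw [c13, h13']
      simp
    · change ⟪a3, a2⟫ = _
      rw [c23, h23']
      simp
    · change ⟪a3, a3⟫ = _
      rw [real_inner_self_eq_norm_sq, ha3]
      simp
  obtain ⟨e, he⟩ := exists_basis_of hort (by rw [hZ, Fintype.card_fin])
  have e0 : e 0 = a1 := he 0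
  have e1 : e 1 = a2 := he 1
  have e2 : e 2 = a3 := he 2
  -- the third vector is `± a3`
  have h4 : a3' = ⟪a3, a3'⟫ • a3 := by
    have h5 := e.sum_repr' a3'
    rw [Fin.sum_univ_three, e0, e1, e2, h13, h23, zero_smul, zero_smul, zero_add, zero_add] at h5
    exact h5.symm
  have hs : ⟪a3, a3'⟫ * ⟪a3, a3'⟫ = 1 := by
    have h5 : ‖a3'‖ = |⟪a3, a3'⟫| * ‖a3‖ := by
      nth_rewrite 1 [h4]
      rw [norm_smul, Real.norm_eq_abs]
    rw [ha3', ha3, mul_one] at h5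
    rw [← abs_mul_abs_self, ← h5, mul_one]
  obtain ⟨r, hr, hr2⟩ : ∃ r : ℝ, a3' = r • a3 ∧ r * r = 1 := ⟨_, h4, hs⟩
  have hw' : Orthonormal ℝ fun i => (![1, 1, 1, r] : Fin 4 → ℝ) i • w i := by
    rw [orthonormal_iff_ite]
    intro i j
    rw [inner_smul_left, inner_smul_right, hww, conj_trivial]
    by_cases hij : i = j
    · subst hij
      rw [if_pos rfl, mul_one]
      fin_cases i
      · simp
      · simp
      · simp
      · simpa using hr2
    · rw [if_neg hij, mul_zero, mul_zero]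
  obtain ⟨w', hw'⟩ := exists_basis_of hw' (by rw [hW, Fintype.card_fin])
  have f0 : w' 0 = z0 := by
    rw [hw' 0, ← hw0]
    exact one_smul ℝ _
  have f1 : w' 1 = w 1 := by
    rw [hw' 1]
    exact one_smul ℝ _
  have f2 : w' 2 = w 2 := by
    rw [hw' 2]
    exact one_smul ℝ _
  have f3 : w' 3 = r • w 3 := hw' 3
  refine ⟨e, w', J, hin, fun x => ?_, fun x => ?_, fun x => ?_, fun x => ?_, fun x => ?_⟩
  · rw [f0, hJ.one]
  · rw [f1, e0, hI1]
  · rw [f2, e1, hI2]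
  · rw [f3, e2, map_smul, LinearMap.smul_apply, hI3', hr, map_smul, LinearMap.smul_apply, smul_smul, hr2, one_smul]
  · rw [e0, e1, e2, h3]

/-- The quaternion operators. -/
noncomputable def qP (I : Z →ₗ[ℝ] V →ₗ[ℝ] V) (e : OrthonormalBasis (Fin 3) ℝ Z) : Fin 4 → V →ₗ[ℝ] V := ![LinearMap.id, I (e 0), I (e 1), I (e 2)]

/-- The signs of the multiplication table of the quaternions. -/
def qs : Fin 4 → Fin 4 → ℝ := ![![1, 1, 1, 1], ![1, -1, 1, -1], ![1, -1, -1, 1], ![1, 1, -1, -1]]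

/-- The multiplication table of the quaternions. -/
def qp : Fin 4 → Fin 4 → Fin 4 := ![![0, 1, 2, 3], ![1, 0, 3, 2], ![2, 3, 0, 1], ![3, 2, 1, 0]]

theorem q_mul (hB : BCd m n I K c) {e : OrthonormalBasis (Fin 3) ℝ Z} (h : ∀ x, I (e 0) (I (e 1) x) = I (e 2) x) (i j : Fin 4) (x : V) :
    qP I e i (qP I e j x) = qs i j • qP I e (qp i j) x := by
  have hee : ∀ i j, ⟪e i, e j⟫ = if i = j then 1 else 0 := fun i j => orthonormal_iff_ite.1 e.orthonormal i j
  have sq : ∀ i x, I (e i) (I (e i) x) = -x := fun i x => by rw [I_sq hB, e.norm_eq_one, one_pow, one_smul]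
  have an : ∀ i j, i ≠ j → ∀ x, I (e i) (I (e j) x) = -I (e j) (I (e i) x) := fun i j hij x =>
    I_anti hB (by rw [hee, if_neg hij]) x
  have h10 : ∀ x, I (e 1) (I (e 0) x) = -I (e 2) x := fun x => by rw [an 1 0 (by decide), h]
  have h02 : ∀ x, I (e 0) (I (e 2) x) = -I (e 1) x := fun x => by rw [← h, sq]
  have h20 : ∀ x, I (e 2) (I (e 0) x) = I (e 1) x := fun x => by rw [an 2 0 (by decide), h02, neg_neg]
  have h21 : ∀ x, I (e 2) (I (e 1) x) = -I (e 0) x := fun x => by rw [← h, sq, map_neg]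
  have h12 : ∀ x, I (e 1) (I (e 2) x) = I (e 0) x := fun x => by rw [an 1 2 (by decide), h21, neg_neg]
  fin_cases i <;> fin_cases j
  · change x = (1 : ℝ) • x
    rw [one_smul]
  · change I (e 0) x = (1 : ℝ) • I (e 0) x
    rw [one_smul]
  · change I (e 1) x = (1 : ℝ) • I (e 1) x
    rw [one_smul]
  · change I (e 2) x = (1 : ℝ) • I (e 2) x
    rw [one_smul]
  · change I (e 0) x = (1 : ℝ) • I (e 0) x
    rw [one_smul]
  · change I (e 0) (I (e 0) x) = (-1 : ℝ) • x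
    rw [sq, neg_one_smul]
  · change I (e 0) (I (e 1) x) = (1 : ℝ) • I (e 2) x
    rw [h, one_smul]
  · change I (e 0) (I (e 2) x) = (-1 : ℝ) • I (e 1) x
    rw [h02, neg_one_smul]
  · change I (e 1) x = (1 : ℝ) • I (e 1) x
    rw [one_smul]
  · change I (e 1) (I (e 0) x) = (-1 : ℝ) • I (e 2) x
    rw [h10, neg_one_smul]
  · change I (e 1) (I (e 1) x) = (-1 : ℝ) • x
    rw [sq, neg_one_smul]
  · change I (e 1) (I (e 2) x) = (1 : ℝ) • I (e 0) x
    rw [h12, one_smul]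
  · change I (e 2) x = (1 : ℝ) • I (e 2) x
    rw [one_smul]
  · change I (e 2) (I (e 0) x) = (1 : ℝ) • I (e 1) x
    rw [h20, one_smul]
  · change I (e 2) (I (e 1) x) = (-1 : ℝ) • I (e 0) x
    rw [h21, neg_one_smul]
  · change I (e 2) (I (e 2) x) = (-1 : ℝ) • x
    rw [sq, neg_one_smul]

/-- The adjoints. -/
theorem q_adj (hB : BCd m n I K c) (e : OrthonormalBasis (Fin 3) ℝ Z) (j : Fin 4) (x y : V) :
    ⟪x, qP I e j y⟫ = (![1, -1, -1, -1] : Fin 4 → ℝ) j * ⟪qP I e j x, y⟫ := by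
  have hs : ∀ i, ⟪x, I (e i) y⟫ = -1 * ⟪I (e i) x, y⟫ := fun i => by
    rw [skew hB (e i) x y]
    ring
  fin_cases j
  · change ⟪x, y⟫ = 1 * ⟪x, y⟫
    rw [one_mul]
  · exact hs 0
  · exact hs 1
  · exact hs 2

theorem q_two (hB : BCd m n I K c) {e : OrthonormalBasis (Fin 3) ℝ Z} (h : ∀ x, I (e 0) (I (e 1) x) = I (e 2) x) (i j : Fin 4) (x y : V) :
    ⟪qP I e i x, qP I e j y⟫ = ((![1, -1, -1, -1] : Fin 4 → ℝ) j * qs j i) * ⟪qP I e (qp j i) x, y⟫ := by
  rw [q_adj hB, q_mul hB h, inner_smul_left, conj_trivial]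
  ring

theorem q_orth (hB : BCd m n I K c) {e : OrthonormalBasis (Fin 3) ℝ Z} (h : ∀ x, I (e 0) (I (e 1) x) = I (e 2) x) {x : V} (hx : ‖x‖ = 1) :
    Orthonormal ℝ fun i => qP I e i x := by
  have hp : ∀ i : Fin 4, i ≠ 0 → ⟪qP I e i x, x⟫ = 0 := by
    intro i hi
    fin_cases i
    · exact absurd rfl hi
    · exact skew_self hB _ _
    · exact skew_self hB _ _
    · exact skew_self hB _ _
  rw [orthonormal_iff_ite]
  intro i j
  by_cases hij : i = j
  · subst hij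
    rw [if_pos rfl, q_two hB h]
    have h1 : qp i i = 0 := by fin_cases i <;> rfl
    have h2 : (![1, -1, -1, -1] : Fin 4 → ℝ) i * qs i i = 1 := by
      fin_cases i <;> simp [qs]
    rw [h1, h2, one_mul]
    change ⟪x, x⟫ = 1
    rw [real_inner_self_eq_norm_sq, hx, one_pow]
  · rw [if_neg hij, q_two hB h, hp _ ?_, mul_zero]
    revert hij
    revert i j
    decide

variable {V' W' U' T' Z' : Type*} [NormedAddCommGroup V'] [InnerProductSpace ℝ V'] [NormedAddCommGroup W'] [InnerProductSpace ℝ W']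
  [NormedAddCommGroup U'] [InnerProductSpace ℝ U'] [NormedAddCommGroup T'] [InnerProductSpace ℝ T'] [NormedAddCommGroup Z'] [InnerProductSpace ℝ Z']
  {m' : V' →ₗ[ℝ] W' →ₗ[ℝ] U'} {n' : V' →ₗ[ℝ] T' →ₗ[ℝ] U'} {I' : Z' →ₗ[ℝ] V' →ₗ[ℝ] V'} {K' : Z' →ₗ[ℝ] W' →ₗ[ℝ] T'} {c' : V' →ₗ[ℝ] V' →ₗ[ℝ] Z'}
  [FiniteDimensional ℝ V'] [FiniteDimensional ℝ W'] [FiniteDimensional ℝ U'] [FiniteDimensional ℝ T'] [FiniteDimensional ℝ Z']

/-- **Uniqueness** for `dim W = 4`, `dim Z = 3`. -/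
theorem uniq3 [Nontrivial V] (hB : BCd m n I K c) (hB' : BCd m' n' I' K' c') (hd : finrank ℝ U = finrank ℝ V) (hd' : finrank ℝ U' = finrank ℝ V')
    (hW : finrank ℝ W = 4) (hZ : finrank ℝ Z = 3) (hW' : finrank ℝ W' = 4) (hZ' : finrank ℝ Z' = 3) (hV : finrank ℝ V = finrank ℝ V') :
    ∃ (f : V ≃ₗᵢ[ℝ] V') (g : W ≃ₗᵢ[ℝ] W') (ψ : Z ≃ₗᵢ[ℝ] Z'), (∀ x y z w, ⟪m' (f x) (g z), m' (f y) (g w)⟫ = ⟪m x z, m y w⟫) ∧
      ∀ x y, c' (f x) (f y) = ψ (c x y) := by
  have hVn : Nontrivial V' := Module.finrank_pos_iff.1 (by rw [← hV]; exact Module.finrank_pos)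
  obtain ⟨e, w, J, h1, h2, h3, h4, h5, h6⟩ := std3 hB hd hW hZ
  obtain ⟨e', w', J', h1', h2', h3', h4', h5', h6'⟩ := std3 hB' hd' hW' hZ'
  obtain ⟨f, hf⟩ := uniq_mod (P := qP I e) (P' := qP I' e') (fun x hx => q_orth hB h6 hx) (fun i j => ⟨_, _, q_two hB h6 i j⟩)
    (fun x hx => q_orth hB' h6' hx) (fun i j => ⟨_, _, q_two hB' h6' i j⟩) qs qp (q_mul hB h6) (q_mul hB' h6') hV
  have hf0 : ∀ x, f (I (e 0) x) = I' (e' 0) (f x) := hf 1
  have hf1 : ∀ x, f (I (e 1) x) = I' (e' 1) (f x) := hf 2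
  have hf2 : ∀ x, f (I (e 2) x) = I' (e' 2) (f x) := hf 3
  obtain ⟨g, -, hg⟩ := inter_of_gen (J := J) (J' := J') w w' f (by
    intro i x
    fin_cases i
    · change f (J (w 0) x) = J' (w' 0) (f x)
      rw [h2, h2']
    · change f (J (w 1) x) = J' (w' 1) (f x)
      rw [h3, h3', hf0]
    · change f (J (w 2) x) = J' (w' 2) (f x)
      rw [h4, h4', hf1]
    · change f (J (w 3) x) = J' (w' 3) (f x)
      rw [h5, h5', hf2])
  obtain ⟨ψ, -, hψ⟩ := inter_of_gen (J := I) (J' := I') e e' f (by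
    intro i x
    fin_cases i
    · exact hf0 x
    · exact hf1 x
    · exact hf2 x)
  refine ⟨f, g, ψ, fun x y z z' => ?_, fun x y => ?_⟩
  · rw [h1', h1, ← hg, ← hg, f.inner_map_map]
  · refine ext_inner_left ℝ fun ξ => ?_
    obtain ⟨ζ, rfl⟩ := ψ.surjective ξ
    have h7 := hB'.cI (ψ ζ) (f x) (f y)
    have h8 := hB.cI ζ x y
    rw [← hψ, f.inner_map_map] at h7
    rw [ψ.inner_map_map]
    linarith

end Pool.Agent.Helper68.AE
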