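import Pool.Agent.Helper68.AE.BCL
import Pool.Agent.Helper95.AE.EdB

/-!
# The edge of type `BC_2`: from the abstract uniqueness to the Lie algebras
-/

set_option autoImplicit false
set_option linter.unusedSectionVars false
set_option linter.style.haveILetI false

namespace Pool.Agent.Helper68.AE

open Module Pool.Agent.Helper96.SA Pool.Agent.Helper96.TO Pool.Agent.Helper69.SLN Pool.Agent.Helper77.LA Pool.Agent.Helper77.ST Pool.Agent.Helper77.TZ2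
  Pool.Agent.Helper95.AE Pool.Agent.Helper25.AE

open scoped RealInnerProductSpace

variable {L : Type} [LieRing L] [LieAlgebra ℝ L] {N : ℕ} {θ : L ≃ₗ⁅ℝ⁆ L} {b : Module.Basis (Fin N) ℝ L} {A : Submodule ℝ L}
  {τ : Module.Dual ℝ A ≃ₗ[ℝ] A} {ν : ℝ} {al be : Module.Dual ℝ A} {L' : Type} [LieRing L'] [LieAlgebra ℝ L'] {N' : ℕ} {θ' : L' ≃ₗ⁅ℝ⁆ L'}
  {b' : Module.Basis (Fin N') ℝ L'} {A' : Submodule ℝ L'} {τ' : Module.Dual ℝ A' ≃ₗ[ℝ] A'} {ν' : ℝ} {al' be' : Module.Dual ℝ A'}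

/-- The edge of type `BC_2` from the abstract uniqueness. -/
theorem bc_edge_of (c : Two θ b A τ al be ν) (c' : Two θ' b' A' τ' al' be' ν')
    (hU : letI := nacg c.h c.hi.pos
      letI := ips c.h c.hi.pos
      letI := nacg c'.h c'.hi.pos
      letI := ips c'.h c'.hi.pos
      ∃ (f : rsp A be ≃ₗᵢ[ℝ] rsp A' be') (g : rsp A al ≃ₗᵢ[ℝ] rsp A' al') (ψ : rsp A (be + be) ≃ₗᵢ[ℝ] rsp A' (be' + be')),
        (∀ x y z w, ⟪mm A' al' be' (f x) (g z), mm A' al' be' (f y) (g w)⟫ = ⟪mm A al be x z, mm A al be y w⟫) ∧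
          ∀ x y, cc A' be' (f x) (f y) = ψ (cc A be x y)) :
    ∃ F G : L →ₗ[ℝ] L', IsoOn θ θ' ν ν' be be' F ∧ IsoOn θ θ' ν ν' al al' G ∧ TC θ θ' A ν ν' be al F G ∧ TC θ θ' A ν ν' be be F F := by
  letI := nacg c.h c.hi.pos
  letI := ips c.h c.hi.pos
  letI := nacg c'.h c'.hi.pos
  letI := ips c'.h c'.hi.pos
  have s2 : (Real.sqrt 2)⁻¹ * (Real.sqrt 2)⁻¹ = 1 / 2 := by
    rw [← mul_inv, Real.mul_self_sqrt (by norm_num)]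
    norm_num
  obtain ⟨f, g, ψ, hfg, hψ⟩ := hU
  obtain ⟨F, hF, hF'⟩ := exists_F c.h c'.h c.hi.pos c'.hi.pos f
  obtain ⟨G, hG, hG'⟩ := exists_F c.h c'.h c.hi.pos c'.hi.pos g
  refine ⟨F, G, hF', hG', fun x y v w hx hy hv hw => ?_, fun x y v w hx hy hv hw => ?_⟩
  · have e1 := hF ⟨x, hx⟩
    have e2 := hF ⟨y, hy⟩
    have e3 := hG ⟨v, hv⟩
    have e4 := hG ⟨w, hw⟩
    change F x = _ at e1
    change F y = _ at e2
    change G v = _ at e3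
    change G w = _ at e4
    have h3 := hfg ⟨x, hx⟩ ⟨y, hy⟩ ⟨v, hv⟩ ⟨w, hw⟩
    have h4 : ip θ' ν' ⁅F x, G v⁆ ⁅F y, G w⁆ = ip θ ν ⁅x, v⁆ ⁅y, w⁆ := by
      rw [e1, e2, e3, e4]
      exact h3
    rw [ip, ip, neg_inj] at h4
    exact h4
  · have e1 := hF ⟨x, hx⟩
    have e2 := hF ⟨y, hy⟩
    have e3 := hF ⟨v, hv⟩
    have e4 := hF ⟨w, hw⟩
    change F x = _ at e1
    change F y = _ at e2
    change F v = _ at e3
    change F w = _ at e4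
    have h3 : ⟪cc A' be' (f ⟨x, hx⟩) (f ⟨v, hv⟩), cc A' be' (f ⟨y, hy⟩) (f ⟨w, hw⟩)⟫ = ⟪cc A be ⟨x, hx⟩ ⟨v, hv⟩, cc A be ⟨y, hy⟩ ⟨w, hw⟩⟫ := by
      rw [hψ, hψ, ψ.inner_map_map]
    have h5 : ip θ' ν' ((Real.sqrt 2)⁻¹ • ⁅F x, F v⁆) ((Real.sqrt 2)⁻¹ • ⁅F y, F w⁆) =
        ip θ ν ((Real.sqrt 2)⁻¹ • ⁅x, v⁆) ((Real.sqrt 2)⁻¹ • ⁅y, w⁆) := by
      rw [e1, e2, e3, e4]
      exact h3
    rw [ip_smul, ip_smul, ip_symm c.h ν ⁅x, v⁆, ip_symm c'.h ν' ⁅F x, F v⁆, ip_smul, ip_smul, ← mul_assoc, ← mul_assoc, s2,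
      ip_symm c.h ν _ ⁅x, v⁆, ip_symm c'.h ν' _ ⁅F x, F v⁆] at h5
    have h4 : ip θ' ν' ⁅F x, F v⁆ ⁅F y, F w⁆ = ip θ ν ⁅x, v⁆ ⁅y, w⁆ := by linarith
    rw [ip, ip, neg_inj] at h4
    exact h4

end Pool.Agent.Helper68.AE
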