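import Pool.Agent.Helper95.AE.BC
import Pool.Agent.Helper95.AE.Lie2

/-!
# The root spaces of type `BC_2`: the data `BCd`

`der_of`: the derivation property follows from the other relations. `Two.bcd`: the data.
-/

set_option autoImplicit false
set_option linter.unusedSectionVars false
set_option linter.style.haveILetI false

namespace Pool.Agent.Helper68.AE

open Module Pool.Agent.Helper96.SA Pool.Agent.Helper96.TO Pool.Agent.Helper69.SLN Pool.Agent.Helper77.LA Pool.Agent.Helper77.ST Pool.Agent.Helper77.TZ2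
  Pool.Agent.Helper95.AE

open scoped RealInnerProductSpace

/-- The derivation property. -/
theorem der_of {V W U T Z : Type*} [NormedAddCommGroup V] [InnerProductSpace ℝ V] [NormedAddCommGroup W] [InnerProductSpace ℝ W]
    [NormedAddCommGroup U] [InnerProductSpace ℝ U] [NormedAddCommGroup T] [InnerProductSpace ℝ T] [NormedAddCommGroup Z] [InnerProductSpace ℝ Z]
    [FiniteDimensional ℝ T] [FiniteDimensional ℝ Z]
    {m : V →ₗ[ℝ] W →ₗ[ℝ] U} {n : V →ₗ[ℝ] T →ₗ[ℝ] U} {I : Z →ₗ[ℝ] V →ₗ[ℝ] V} {K : Z →ₗ[ℝ] W →ₗ[ℝ] T} {c : V →ₗ[ℝ] V →ₗ[ℝ] Z}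
    (nm : ∀ x z, ‖m x z‖ = ‖x‖ * ‖z‖) (cI : ∀ ζ x y, ⟪I ζ x, y⟫ = -⟪ζ, c x y⟫) (cs : ∀ x y, c x y = -c y x)
    (nIK : ∀ x ζ z, n x (K ζ z) = -m (I ζ x) z) (sy : ∀ x y z t, ⟪n x t, m y z⟫ - ⟪n y t, m x z⟫ = 2 * ⟪t, K (c x y) z⟫)
    (z0 z : W) (hz0 : ‖z0‖ = 1) (hz : ⟪z, z0⟫ = 0) (J : V →ₗ[ℝ] V) (hJ : ∀ x, m (J x) z0 = m x z) (ζ : Z) :
    ∃ ζ', ∀ x, J (I ζ x) = I ζ (J x) + I ζ' x := by
  have e0 : ∀ x y, ⟪m x z0, m y z0⟫ = ⟪x, y⟫ := fun x y => by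
    rw [pol_left nm, hz0, one_pow, mul_one]
  have hs : ∀ x y, ⟪J x, y⟫ = -⟪x, J y⟫ := by
    intro x y
    have h1 := pol_both nm x y z z0
    rw [hz, mul_zero, ← hJ, ← hJ, e0, e0] at h1
    linarith
  have Is : ∀ ξ x y, ⟪I ξ x, y⟫ = -⟪x, I ξ y⟫ := by
    intro ξ x y
    have e1 := cI ξ x y
    have e2 := cI ξ y x
    have e3 := real_inner_comm x (I ξ y)
    rw [cs x y, inner_neg_right] at e1
    linarith
  refine ⟨-(2 : ℝ) • LinearMap.adjoint (K.flip z) (K ζ z0), fun x => ?_⟩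
  refine ext_inner_right ℝ fun y => ?_
  have h1 := sy x y z (K ζ z0)
  rw [nIK, nIK, inner_neg_left, inner_neg_left, ← hJ, ← hJ, e0, e0] at h1
  have h2 : ⟪K ζ z0, K (c x y) z⟫ = ⟪LinearMap.adjoint (K.flip z) (K ζ z0), c x y⟫ := by
    rw [LinearMap.adjoint_inner_left]
    rfl
  have h3 := cI (LinearMap.adjoint (K.flip z) (K ζ z0)) x y
  have h4 := hs (I ζ x) y
  have h5 := Is ζ y (J x)
  rw [real_inner_comm (I ζ (J x))] at h5
  rw [inner_add_left, map_smul, LinearMap.smul_apply, inner_smul_left, conj_trivial]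
  rw [h2] at h1
  linarith

variable {L : Type} [LieRing L] [LieAlgebra ℝ L] {N : ℕ} {θ : L ≃ₗ⁅ℝ⁆ L} {b : Module.Basis (Fin N) ℝ L} {A : Submodule ℝ L}
  {τ : Module.Dual ℝ A ≃ₗ[ℝ] A} {ν : ℝ} {al be : Module.Dual ℝ A}

/-- `[θ x, ζ] / √2`, `ζ ∈ g_(2 be)`, `x ∈ g_be`. -/
noncomputable def II (hA : MaxFlat θ A) (be : Module.Dual ℝ A) : rsp A (be + be) →ₗ[ℝ] rsp A be →ₗ[ℝ] rsp A be :=
  (Real.sqrt 2)⁻¹ • ((brk A (-be) (be + be) be (by module)).comp (thr hA be (-be) rfl)).flip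

theorem II_apply {hA : MaxFlat θ A} (ζ : rsp A (be + be)) (x : rsp A be) :
    ((II hA be ζ x : rsp A be) : L) = (Real.sqrt 2)⁻¹ • ⁅θ (x : L), (ζ : L)⁆ := rfl

/-- `[ζ, z] / √2`, `ζ ∈ g_(2 be)`, `z ∈ g_al`. -/
noncomputable def KK (A : Submodule ℝ L) (al be : Module.Dual ℝ A) : rsp A (be + be) →ₗ[ℝ] rsp A al →ₗ[ℝ] rsp A (al + (2 : ℝ) • be) :=
  (Real.sqrt 2)⁻¹ • brk A (be + be) al (al + (2 : ℝ) • be) (by module)

theorem KK_apply (ζ : rsp A (be + be)) (z : rsp A al) :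
    ((KK A al be ζ z : rsp A (al + (2 : ℝ) • be)) : L) = (Real.sqrt 2)⁻¹ • ⁅(ζ : L), (z : L)⁆ := rfl

/-- `[x, y] / √2`, `x, y ∈ g_be`. -/
noncomputable def cc (A : Submodule ℝ L) (be : Module.Dual ℝ A) : rsp A be →ₗ[ℝ] rsp A be →ₗ[ℝ] rsp A (be + be) :=
  (Real.sqrt 2)⁻¹ • brk A be be (be + be) rfl

theorem cc_apply (x y : rsp A be) : ((cc A be x y : rsp A (be + be)) : L) = (Real.sqrt 2)⁻¹ • ⁅(x : L), (y : L)⁆ := rfl

theorem norm_of_ip (h : CartanBasis θ b) (hν : 0 < ν) {u x z : L} (hu : ip θ ν u u = 2 * ip θ ν x x * ip θ ν z z) :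
    letI := nacg h hν
    letI := ips h hν
    ‖(Real.sqrt 2)⁻¹ • u‖ = ‖x‖ * ‖z‖ := by
  letI := nacg h hν
  letI := ips h hν
  have h3 : ‖(Real.sqrt 2)⁻¹ • u‖ ^ 2 = (‖x‖ * ‖z‖) ^ 2 := by
    rw [norm_smul, mul_pow, mul_pow, ← real_inner_self_eq_norm_sq u, ← real_inner_self_eq_norm_sq x, ← real_inner_self_eq_norm_sq z]
    change ‖(Real.sqrt 2)⁻¹‖ ^ 2 * ip θ ν u u = ip θ ν x x * ip θ ν z z
    rw [hu, norm_inv, Real.norm_of_nonneg (Real.sqrt_nonneg 2), inv_pow, Real.sq_sqrt (by norm_num)]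
    ring
  exact (pow_left_inj₀ (norm_nonneg _) (by positivity) two_ne_zero).1 h3

/-- **The data of type `BC_2`.** -/
theorem Two.bcd (c : Two θ b A τ al be ν) :
    letI := nacg c.h c.hi.pos
    letI := ips c.h c.hi.pos
    BCd (mm A al be) (nn c.hA al be) (II c.hA be) (KK A al be) (cc A be) := by
  have hf : Module.Finite ℝ L := Module.Finite.of_basis b
  letI := nacg c.h c.hi.pos
  letI := ips c.h c.hi.pos
  have s2 : (Real.sqrt 2)⁻¹ * (Real.sqrt 2)⁻¹ = 1 / 2 := by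
    rw [← mul_inv, Real.mul_self_sqrt (by norm_num)]
    norm_num
  have hcI : ∀ (ζ : rsp A (be + be)) (x y : rsp A be), ⟪II c.hA be ζ x, y⟫ = -⟪ζ, cc A be x y⟫ := by
    intro ζ x y
    change ip θ ν ((Real.sqrt 2)⁻¹ • ⁅θ (x : L), (ζ : L)⁆) (y : L) = -ip θ ν (ζ : L) ((Real.sqrt 2)⁻¹ • ⁅(x : L), (y : L)⁆)
    rw [ip_smul, ip_adj c.h, c.h.invol, ip_symm c.h ν (ζ : L) ((Real.sqrt 2)⁻¹ • ⁅(x : L), (y : L)⁆), ip_smul, ip_symm c.h ν _ (ζ : L)]
    ring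
  have hcs : ∀ x y : rsp A be, cc A be x y = -cc A be y x := by
    intro x y
    apply Subtype.ext
    change (Real.sqrt 2)⁻¹ • ⁅(x : L), (y : L)⁆ = -((Real.sqrt 2)⁻¹ • ⁅(y : L), (x : L)⁆)
    rw [← smul_neg, lie_skew]
  have hIK : ∀ (x : rsp A be) (ζ : rsp A (be + be)) (z : rsp A al), nn c.hA al be x (KK A al be ζ z) = -mm A al be (II c.hA be ζ x) z := by
    intro x ζ z
    apply Subtype.ext
    change -⁅θ (x : L), (Real.sqrt 2)⁻¹ • ⁅(ζ : L), (z : L)⁆⁆ = -⁅(Real.sqrt 2)⁻¹ • ⁅θ (x : L), (ζ : L)⁆, (z : L)⁆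
    have e1 : ⁅θ (x : L), (z : L)⁆ = 0 := by
      have x2 : Wv A be (x : L) := x.2
      exact c.zero ((x2.theta c.hA).lie z.2) 1 (-1) (by push_cast; module) (by decide) (by decide)
    rw [lie_smul, smul_lie, leibniz_lie, e1, lie_zero, add_zero]
  have hsy : ∀ (x y : rsp A be) (z : rsp A al) (t : rsp A (al + (2 : ℝ) • be)),
      ⟪nn c.hA al be x t, mm A al be y z⟫ - ⟪nn c.hA al be y t, mm A al be x z⟫ = 2 * ⟪t, KK A al be (cc A be x y) z⟫ := by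
    intro x y z t
    rw [c.inner_nm, c.inner_nm]
    change _ = 2 * ip θ ν (t : L) ((Real.sqrt 2)⁻¹ • ⁅(Real.sqrt 2)⁻¹ • ⁅(x : L), (y : L)⁆, (z : L)⁆)
    rw [smul_lie, smul_smul, s2, ip_symm c.h ν (t : L) (((1 : ℝ) / 2) • _), ip_smul, ip_symm c.h ν _ (t : L), leibniz_lie (x : L)]
    rw [ip_symm c.h ν (t : L) (_ + _), ip_add, ip_symm c.h ν _ (t : L), ip_symm c.h ν _ (t : L)]
    ring
  refine ⟨c.norm_mm, c.norm_nn, fun x z hx => ?_, c.f2, fun ζ x => ?_, hcI, hcs, fun ζ z => ?_, hIK, hsy, ?_⟩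
  · obtain ⟨t, ht, -⟩ := c.f1 x z hx
    exact ⟨t, ht⟩
  · have x2 : Wv A be (x : L) := x.2
    have h1 : ip θ ν ⁅θ (x : L), (ζ : L)⁆ ⁅θ (x : L), (ζ : L)⁆ = 2 * ip θ ν (ζ : L) (ζ : L) * ip θ ν (x : L) (x : L) := by
      rw [ip_lie c.hτ c.h c.hA c.hi.pos (c := 2) ?_ ?_ ?_ (x2.theta c.hA) ζ.2, ip_theta c.h]
      · ring
      · have := c.ne (m := 0) (n := -3) (by decide)
        intro h1
        apply this
        rw [← h1]
        push_cast
        module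
      · have := c.nr (m := 0) (n := -3) (by decide)
        intro h1
        apply this
        convert h1 using 1
        push_cast
        module
      · rw [map_neg, map_neg, LinearMap.add_apply, c.hi.bb]
        ring
    exact norm_of_ip c.h c.hi.pos h1
  · have h1 : ip θ ν ⁅(ζ : L), (z : L)⁆ ⁅(ζ : L), (z : L)⁆ = 2 * ip θ ν (ζ : L) (ζ : L) * ip θ ν (z : L) (z : L) := by
      refine ip_lie c.hτ c.h c.hA c.hi.pos (c := 2) ?_ ?_ ?_ ζ.2 z.2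
      · have := c.ne (m := -1) (n := 2) (by decide)
        intro h1
        apply this
        rw [← h1]
        push_cast
        module
      · have := c.nr (m := -1) (n := 2) (by decide)
        intro h1
        apply this
        convert h1 using 1
        push_cast
        module
      · rw [map_add, map_add, c.hi.ab]
        ring
    exact norm_of_ip c.h c.hi.pos h1
  · exact der_of c.norm_mm hcI hcs hIK hsy

end Pool.Agent.Helper68.AE
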