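import Mathlib

/-!
# The edge of type `G_2` (abstract part)

`V = g_α` (short), `W = g_β` (long), `U₁ = g_(α+β)`, `U₂ = g_(2α+β)`, `W₃ = g_(3α+β)`; `m(x, z) = [x, z]`, `p(x, u) = [x, u]`, `q(x, v) = [x, v]` up to scalars.
* `g2_eq`: `dim W = dim V`. If not, there are orthonormal `x`, `y` with `{x, x, y} = {x, y, y} = 0` for `{x, y, v} = q(x, p(y, m(v, z₀)))`, so that
  `8 κ² = |{x + y, x + y, x + y}|² = |{x, x, x} + {y, y, y}|² ≤ 4 κ²`.
* `g2_le`: then `dim V ≤ 2`: `x ∘ y = p(x, m(y, z₀))` is commutative and `|x ∘ y| = λ |x| |y|`.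
-/

set_option autoImplicit false

namespace Pool.Agent.Helper68.AE

open scoped RealInnerProductSpace

variable {V W U U₂ W₃ : Type*} [NormedAddCommGroup V] [InnerProductSpace ℝ V] [NormedAddCommGroup W] [InnerProductSpace ℝ W]
  [NormedAddCommGroup U] [InnerProductSpace ℝ U] [NormedAddCommGroup U₂] [InnerProductSpace ℝ U₂] [NormedAddCommGroup W₃]
  [InnerProductSpace ℝ W₃]

theorem nm_right {m : V →ₗ[ℝ] W →ₗ[ℝ] U} (hm : ∀ x z, ‖m x z‖ = ‖x‖ * ‖z‖) (x y : V) (z : W) :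
    ⟪m x z, m y z⟫ = ⟪x, y⟫ * ‖z‖ ^ 2 := by
  have h1 := hm (x + y) z
  have h2 : ‖m (x + y) z‖ ^ 2 = (‖x + y‖ * ‖z‖) ^ 2 := by rw [h1]
  rw [map_add, LinearMap.add_apply, norm_add_sq_real, mul_pow, norm_add_sq_real, hm, hm] at h2
  linarith

theorem nm_pol {m : V →ₗ[ℝ] W →ₗ[ℝ] U} (hm : ∀ x z, ‖m x z‖ = ‖x‖ * ‖z‖) (x y : V) (z w : W) :
    ⟪m x z, m y w⟫ + ⟪m x w, m y z⟫ = 2 * ⟪x, y⟫ * ⟪z, w⟫ := by
  have h1 := nm_right hm x y (z + w)
  have h2 := nm_right hm x y z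
  have h3 := nm_right hm x y w
  simp only [map_add, inner_add_left, inner_add_right, norm_add_sq_real] at h1
  linarith

/-- the map `z ↦ m(x, z)` for a unit vector `x` -/
noncomputable def lmap {m : V →ₗ[ℝ] W →ₗ[ℝ] U} (hm : ∀ x z, ‖m x z‖ = ‖x‖ * ‖z‖) {x : V} (hx : ‖x‖ = 1) : W →ₗᵢ[ℝ] U :=
  ⟨m x, fun z => by rw [hm, hx, one_mul]⟩

theorem g2_eq [FiniteDimensional ℝ V] [FiniteDimensional ℝ W] [FiniteDimensional ℝ U] (m : V →ₗ[ℝ] W →ₗ[ℝ] U) (p : V →ₗ[ℝ] U →ₗ[ℝ] U₂) (q : V →ₗ[ℝ] U₂ →ₗ[ℝ] W₃) {z₀ : W} (hz : ‖z₀‖ = 1)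
    (hm : ∀ x z, ‖m x z‖ = ‖x‖ * ‖z‖) (hV : 0 < Module.finrank ℝ V) (hU : Module.finrank ℝ U = Module.finrank ℝ V)
    (hs1 : ∀ x y v, q x (p y (m v z₀)) = q y (p x (m v z₀))) (hs2 : ∀ x y v, q x (p y (m v z₀)) = q x (p v (m y z₀)))
    {κ : ℝ} (hκ : 0 < κ) (hT : ∀ x, ‖q x (p x (m x z₀))‖ = κ * ‖x‖ ^ 3)
    (ho : ∀ x u, (∀ w, ⟪m x w, u⟫ = 0) → q x (p x u) = 0) : Module.finrank ℝ W = Module.finrank ℝ V := by
  have hV' : Nontrivial V := Module.finrank_pos_iff.1 hV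
  obtain ⟨x, hx⟩ := exists_norm_eq V zero_le_one
  have hle : Module.finrank ℝ W ≤ Module.finrank ℝ U :=
    LinearMap.finrank_le_finrank_of_injective (lmap hm hx).injective
  by_contra hne
  have hlt : Module.finrank ℝ W < Module.finrank ℝ U := lt_of_le_of_ne hle (by rw [hU]; exact hne)
  -- a vector orthogonal to `m(x, W)`
  obtain ⟨u, hu, hu0⟩ : ∃ u : U, (∀ w, ⟪m x w, u⟫ = 0) ∧ u ≠ 0 := by
    have h1 : (LinearMap.range (m x))ᗮ ≠ ⊥ := by
      intro h0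
      have h2 := (Submodule.orthogonal_eq_bot_iff).1 h0
      have h3 : Module.finrank ℝ (LinearMap.range (m x)) ≤ Module.finrank ℝ W := LinearMap.finrank_range_le _
      rw [h2, finrank_top] at h3
      omega
    obtain ⟨u, hu, hu0⟩ := Submodule.exists_mem_ne_zero_of_ne_bot h1
    exact ⟨u, fun w => (Submodule.mem_orthogonal _ _).1 hu _ ⟨w, rfl⟩, hu0⟩
  obtain ⟨y, hy, hyo⟩ : ∃ y : V, ‖y‖ = 1 ∧ ∀ w, ⟪m x w, m y z₀⟫ = 0 := by
    let C0 : V →ₗᵢ[ℝ] U := ⟨m.flip z₀, fun x => by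
      change ‖m x z₀‖ = ‖x‖
      rw [hm, hz, mul_one]⟩
    let C : V ≃ₗᵢ[ℝ] U := C0.toLinearIsometryEquiv hU.symm
    have hC : ∀ x, C x = m x z₀ := fun x => rfl
    have h1 : m (C.symm u) z₀ = u := by rw [← hC, C.apply_symm_apply]
    have h2 : ‖C.symm u‖ ≠ 0 := by
      rw [C.symm.norm_map]
      exact norm_ne_zero_iff.2 hu0
    refine ⟨‖C.symm u‖⁻¹ • C.symm u, ?_, fun w => ?_⟩
    · rw [norm_smul, norm_inv, norm_norm, inv_mul_cancel₀ h2]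
    · rw [map_smul, LinearMap.smul_apply, h1, inner_smul_right, hu, mul_zero]
  have hxy : ⟪x, y⟫ = 0 := by
    have := nm_right hm x y z₀
    rw [hyo, hz] at this
    linarith
  have hyx : ∀ w, ⟪m y w, m x z₀⟫ = 0 := by
    intro w
    have := nm_pol hm x y z₀ w
    rw [hyo, hxy] at this
    rw [real_inner_comm]
    linarith
  have t1 : q x (p x (m y z₀)) = 0 := ho x _ hyo
  have t2 : q y (p y (m x z₀)) = 0 := ho y _ hyx
  have t3 : q x (p y (m x z₀)) = 0 := by rw [hs2, t1]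
  have t4 : q y (p x (m x z₀)) = 0 := by rw [hs1, t3]
  have t5 : q y (p x (m y z₀)) = 0 := by rw [hs2, t2]
  have t6 : q x (p y (m y z₀)) = 0 := by rw [hs1, t5]
  have t7 : q (x + y) (p (x + y) (m (x + y) z₀)) = q x (p x (m x z₀)) + q y (p y (m y z₀)) := by
    simp only [map_add, LinearMap.add_apply, t1, t2, t3, t4, t5, t6]
    abel
  have h1 := hT (x + y)
  have h2 : ‖x + y‖ ^ 2 = 2 := by
    rw [norm_add_sq_real, hx, hy, hxy]
    norm_num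
  have h3 : κ * ‖x + y‖ ^ 3 ≤ κ + κ := by
    rw [← h1, t7]
    refine (norm_add_le _ _).trans ?_
    rw [hT, hT, hx, hy]
    linarith
  have h4 : ‖x + y‖ ^ 3 ≤ 2 := by
    have : κ * ‖x + y‖ ^ 3 ≤ κ * 2 := by linarith
    exact le_of_mul_le_mul_left this hκ
  have h5 : (‖x + y‖ ^ 3) ^ 2 = 8 := by
    rw [← pow_mul, show 3 * 2 = 2 * 3 by norm_num, pow_mul, h2]
    norm_num
  have h6 : 0 ≤ ‖x + y‖ ^ 3 := by positivity
  nlinarith

theorem g2_le [FiniteDimensional ℝ V] [FiniteDimensional ℝ W] [FiniteDimensional ℝ U] (m : V →ₗ[ℝ] W →ₗ[ℝ] U) (p : V →ₗ[ℝ] U →ₗ[ℝ] U₂) {z₀ : W} (hz : ‖z₀‖ = 1)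
    (hm : ∀ x z, ‖m x z‖ = ‖x‖ * ‖z‖) (hU : Module.finrank ℝ U = Module.finrank ℝ V) (hW : Module.finrank ℝ W = Module.finrank ℝ V)
    (hs : ∀ x y, p x (m y z₀) = p y (m x z₀)) {lam : ℝ} (hl : 0 < lam) (hp : ∀ x w, ‖p x (m x w)‖ = lam * ‖x‖ ^ 2 * ‖w‖) :
    Module.finrank ℝ V ≤ 2 := by
  -- `|p(x, u)| = λ |x| |u|`
  have hp1 : ∀ x u, ‖p x u‖ = lam * ‖x‖ * ‖u‖ := by
    intro x u
    by_cases hx : x = 0
    · rw [hx, map_zero, LinearMap.zero_apply, norm_zero, norm_zero, mul_zero, zero_mul]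
    · have hxn : ‖x‖ ≠ 0 := norm_ne_zero_iff.2 hx
      have h1 : Function.Injective (m x) := by
        rw [← LinearMap.ker_eq_bot, LinearMap.ker_eq_bot']
        intro w hw
        have h2 := hm x w
        rw [hw, norm_zero] at h2
        have h3 := mul_eq_zero.1 h2.symm
        exact norm_eq_zero.1 (h3.resolve_left hxn)
      have h2 : Function.Surjective (m x) :=
        (LinearMap.injective_iff_surjective_of_finrank_eq_finrank (by rw [hW, hU])).1 h1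
      obtain ⟨w, rfl⟩ := h2 u
      rw [hp, hm]
      ring
  have ho : ∀ x y, ‖p x (m y z₀)‖ = lam * ‖x‖ * ‖y‖ := by
    intro x y
    rw [hp1, hm, hz, mul_one]
  -- orthonormal vectors have opposite squares
  have hsq : ∀ x y : V, ‖x‖ = 1 → ‖y‖ = 1 → ⟪x, y⟫ = 0 → p x (m x z₀) + p y (m y z₀) = 0 := by
    intro x y hx hy hxy
    have e1 : p (x + y) (m (x - y) z₀) = p x (m x z₀) - p y (m y z₀) := by
      simp only [map_add, map_sub, LinearMap.add_apply, LinearMap.sub_apply]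
      rw [hs y x]
      abel
    have e2 := ho (x + y) (x - y)
    rw [e1] at e2
    have n1 : ‖x + y‖ ^ 2 = 2 := by
      rw [norm_add_sq_real, hx, hy, hxy]
      norm_num
    have n2 : ‖x - y‖ ^ 2 = 2 := by
      rw [norm_sub_sq_real, hx, hy, hxy]
      norm_num
    have e3 : ‖p x (m x z₀) - p y (m y z₀)‖ ^ 2 = 4 * lam ^ 2 := by
      rw [e2, mul_pow, mul_pow, n1, n2]
      ring
    have e4 := parallelogram_law_with_norm ℝ (p x (m x z₀)) (p y (m y z₀))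
    have e5 := ho x x
    have e6 := ho y y
    rw [hx, mul_one, mul_one] at e5
    rw [hy, mul_one, mul_one] at e6
    rw [e5, e6] at e4
    have e7 : ‖p x (m x z₀) + p y (m y z₀)‖ ^ 2 = 0 := by nlinarith
    exact norm_eq_zero.1 (pow_eq_zero_iff two_ne_zero |>.1 e7)
  by_contra hcon
  push Not at hcon
  let b := stdOrthonormalBasis ℝ V
  have hb : ∀ i j : Fin (Module.finrank ℝ V), i ≠ j → p (b i) (m (b i) z₀) + p (b j) (m (b j) z₀) = 0 := by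
    intro i j hij
    exact hsq _ _ (b.orthonormal.1 i) (b.orthonormal.1 j) (b.orthonormal.2 hij)
  have h1 := hb ⟨0, by omega⟩ ⟨1, by omega⟩ (by simp)
  have h2 := hb ⟨0, by omega⟩ ⟨2, by omega⟩ (by simp)
  have h3 := hb ⟨1, by omega⟩ ⟨2, by omega⟩ (by simp)
  have h4 : (2 : ℝ) • p (b ⟨0, by omega⟩) (m (b ⟨0, by omega⟩) z₀) = 0 := by
    rw [two_smul]
    have e1 := eq_neg_of_add_eq_zero_right h1
    have e2 := eq_neg_of_add_eq_zero_right h2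
    rw [e1, e2] at h3
    have h5 := neg_eq_zero.2 h3
    rw [neg_add, neg_neg] at h5
    exact h5
  have h5 := (smul_eq_zero.1 h4).resolve_left two_ne_zero
  have h6 := ho (b ⟨0, by omega⟩) (b ⟨0, by omega⟩)
  rw [h5, norm_zero, b.orthonormal.1, mul_one, mul_one] at h6
  linarith

end Pool.Agent.Helper68.AE
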