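import Pool.Agent.Helper25.AE.Iso
import Pool.Agent.Helper77.ST.ARefl
import Pool.Agent.Helper68.AE.G2d

/-!
# The edge of type `G_2`: norms of brackets (Lie side)

`α` short, `β` long simple restricted roots, `2 β(τ α) = -3 α(τ α)`, `β(τ β) = 3 α(τ α)`. All norms are `|x|² = -κ(x, θ x)`.
`nrm_lie`: `|[x, w]|² = |[θ x, w]|² - ψ(τ α) |x|² |w|²`, `w` of weight `ψ`.
-/

set_option autoImplicit false

namespace Pool.Agent.Helper68.AE

open Pool.Agent.Helper96.SA Pool.Agent.Helper96.TO Pool.Agent.Helper69.SLN Pool.Agent.Helper77.TZ2 Pool.Agent.Helper77.LA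
  Pool.Agent.Helper77.ST

variable {L : Type} [LieRing L] [LieAlgebra ℝ L] {N : ℕ} {θ : L ≃ₗ⁅ℝ⁆ L} {b : Module.Basis (Fin N) ℝ L} {A : Submodule ℝ L}
  {τ : Module.Dual ℝ A ≃ₗ[ℝ] A} {α β : Module.Dual ℝ A}

/-- `[θ x, [x, w]] = -κ(x, θ x) ψ(τ α) w + [x, [θ x, w]]` -/
theorem th_lie_lie (hτ : ∀ (φ : Module.Dual ℝ A) (a : A), killingForm ℝ L (τ φ : L) (a : L) = φ a) (h : CartanBasis θ b)
    (hA : MaxFlat θ A) {ψ : Module.Dual ℝ A} {x w : L} (hx : Wv A α x) (hw : Wv A ψ w) :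
    ⁅θ x, ⁅x, w⁆⁆ = (-(killingForm ℝ L x (θ x) * ψ (τ α))) • w + ⁅x, ⁅θ x, w⁆⁆ := by
  rw [leibniz_lie, ← lie_skew (θ x) x, lie_theta_self hτ h hA hx, neg_lie, smul_lie, hw (τ α), smul_smul, neg_smul]

/-- `|[x, w]|² = |[θ x, w]|² - ψ(τ α) |x|² |w|²` -/
theorem nrm_lie (hτ : ∀ (φ : Module.Dual ℝ A) (a : A), killingForm ℝ L (τ φ : L) (a : L) = φ a) (h : CartanBasis θ b)
    (hA : MaxFlat θ A) {ψ : Module.Dual ℝ A} {x w : L} (hx : Wv A α x) (hw : Wv A ψ w) :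
    killingForm ℝ L ⁅x, w⁆ (θ ⁅x, w⁆) = killingForm ℝ L ⁅θ x, w⁆ (θ ⁅θ x, w⁆) +
      ψ (τ α) * (killingForm ℝ L x (θ x) * killingForm ℝ L w (θ w)) := by
  have e1 : killingForm ℝ L ⁅x, w⁆ (θ ⁅x, w⁆) = -killingForm ℝ L ⁅θ x, ⁅x, w⁆⁆ (θ w) := by
    rw [LieEquiv.map_lie, ← kf_inv, ← lie_skew (θ x) ⁅x, w⁆, map_neg, LinearMap.neg_apply, neg_neg]
  have e2 : killingForm ℝ L ⁅x, ⁅θ x, w⁆⁆ (θ w) = -killingForm ℝ L ⁅θ x, w⁆ (θ ⁅θ x, w⁆) := by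
    rw [LieEquiv.map_lie, h.invol, ← kf_inv, ← lie_skew ⁅θ x, w⁆ x, map_neg, LinearMap.neg_apply, neg_neg]
  rw [e1, th_lie_lie hτ h hA hx hw, map_add, map_smul, LinearMap.add_apply, LinearMap.smul_apply, smul_eq_mul, e2]
  ring

theorem nrm_zero (h : CartanBasis θ b) {x : L} (hx : killingForm ℝ L x (θ x) = 0) : x = 0 := by
  by_contra h0
  have := pos h h0
  linarith

theorem kf_smul_smul (θ : L ≃ₗ⁅ℝ⁆ L) (c : ℝ) (x : L) : killingForm ℝ L (c • x) (θ (c • x)) = c ^ 2 * killingForm ℝ L x (θ x) := by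
  rw [map_smul, map_smul, map_smul, LinearMap.smul_apply, smul_eq_mul, smul_eq_mul]
  ring

/-- The relations of an edge of type `G_2`. -/
structure G2E (θ : L ≃ₗ⁅ℝ⁆ L) (b : Module.Basis (Fin N) ℝ L) (A : Submodule ℝ L) (τ : Module.Dual ℝ A ≃ₗ[ℝ] A) (α β : Module.Dual ℝ A) :
    Prop where
  h : CartanBasis θ b
  hA : MaxFlat θ A
  hτ : ∀ (φ : Module.Dual ℝ A) (a : A), killingForm ℝ L (τ φ : L) (a : L) = φ a
  ra : α ∈ rootsL A
  rb : β ∈ rootsL A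
  d : β - α ∉ rootsL A
  aa : α + α ∉ rootsL A
  ba : 2 * β (τ α) = -3 * α (τ α)
  bb : β (τ β) = 3 * α (τ α)

theorem G2E.pos (c : G2E θ b A τ α β) : 0 < α (τ α) := tau_pos c.hτ c.h c.hA c.ra.1

theorem G2E.d0 (c : G2E θ b A τ α β) : β - α ≠ 0 := by
  intro h0
  have h1 := sub_eq_zero.1 h0
  have h2 := c.ba
  rw [h1] at h2
  have := c.pos
  linarith

theorem G2E.aa0 (c : G2E θ b A τ α β) : α + α ≠ 0 := by
  intro h0
  rw [← two_smul ℝ] at h0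
  exact c.ra.1 ((smul_eq_zero.1 h0).resolve_left two_ne_zero)

/-- `[θ x, z] = 0` -/
theorem G2E.low (c : G2E θ b A τ α β) {x z : L} (hx : Wv A α x) (hz : Wv A β z) : ⁅θ x, z⁆ = 0 := by
  have h1 := (hx.theta c.hA).lie hz
  rw [neg_add_eq_sub] at h1
  exact h1.eq_zero c.d c.d0

/-- elements of weight `α` commute -/
theorem G2E.comm (c : G2E θ b A τ α β) {x y : L} (hx : Wv A α x) (hy : Wv A α y) : ⁅x, y⁆ = 0 :=
  (hx.lie hy).eq_zero c.aa c.aa0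

theorem G2E.swap (c : G2E θ b A τ α β) {x y : L} (hx : Wv A α x) (hy : Wv A α y) (u : L) : ⁅x, ⁅y, u⁆⁆ = ⁅y, ⁅x, u⁆⁆ := by
  rw [leibniz_lie, c.comm hx hy, zero_lie, zero_add]

/-- `|[x, z]|² = (3 c / 2) |x|² |z|²` -/
theorem G2E.n1 (c : G2E θ b A τ α β) {x z : L} (hx : Wv A α x) (hz : Wv A β z) :
    2 * killingForm ℝ L ⁅x, z⁆ (θ ⁅x, z⁆) = -(3 * α (τ α) * (killingForm ℝ L x (θ x) * killingForm ℝ L z (θ z))) := by
  have h1 := nrm_lie c.hτ c.h c.hA hx hz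
  rw [c.low hx hz, map_zero, LinearMap.zero_apply, zero_add] at h1
  rw [h1]
  have := c.ba
  linear_combination (killingForm ℝ L x (θ x) * killingForm ℝ L z (θ z)) * this

/-- `[θ x, [x, z]]` -/
theorem G2E.f1 (c : G2E θ b A τ α β) {x z : L} (hx : Wv A α x) (hz : Wv A β z) :
    ⁅θ x, ⁅x, z⁆⁆ = (-(killingForm ℝ L x (θ x) * β (τ α))) • z := by
  rw [th_lie_lie c.hτ c.h c.hA hx hz, c.low hx hz, lie_zero, add_zero]

/-- `|[x, [x, z]]|² = 3 c² |x|⁴ |z|²` -/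
theorem G2E.n2 (c : G2E θ b A τ α β) {x z : L} (hx : Wv A α x) (hz : Wv A β z) :
    killingForm ℝ L ⁅x, ⁅x, z⁆⁆ (θ ⁅x, ⁅x, z⁆⁆) = 3 * α (τ α) ^ 2 * (killingForm ℝ L x (θ x) ^ 2 * killingForm ℝ L z (θ z)) := by
  have h1 := nrm_lie c.hτ c.h c.hA hx (hx.lie hz)
  rw [c.f1 hx hz, kf_smul_smul, LinearMap.add_apply] at h1
  have h2 := c.n1 hx hz
  have h3 : β (τ α) = -3 / 2 * α (τ α) := by linarith [c.ba]
  have h4 : killingForm ℝ L ⁅x, z⁆ (θ ⁅x, z⁆) = -(3 / 2 * α (τ α) * (killingForm ℝ L x (θ x) * killingForm ℝ L z (θ z))) := by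
    linarith
  rw [h1, h4, h3]
  ring

/-- `[θ x, [x, [x, z]]]` -/
theorem G2E.f2 (c : G2E θ b A τ α β) {x z : L} (hx : Wv A α x) (hz : Wv A β z) :
    ⁅θ x, ⁅x, ⁅x, z⁆⁆⁆ = (2 * α (τ α) * killingForm ℝ L x (θ x)) • ⁅x, z⁆ := by
  rw [th_lie_lie c.hτ c.h c.hA hx (hx.lie hz), c.f1 hx hz, lie_smul, ← add_smul, LinearMap.add_apply]
  have h3 : β (τ α) = -3 / 2 * α (τ α) := by linarith [c.ba]
  congr 1
  rw [h3]
  ring

/-- `|[x, [x, [x, z]]]|² = (9 / 2) c³ |x|⁶ |z|²` -/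
theorem G2E.n3 (c : G2E θ b A τ α β) {x z : L} (hx : Wv A α x) (hz : Wv A β z) :
    2 * killingForm ℝ L ⁅x, ⁅x, ⁅x, z⁆⁆⁆ (θ ⁅x, ⁅x, ⁅x, z⁆⁆⁆) =
      -(9 * α (τ α) ^ 3 * (killingForm ℝ L x (θ x) ^ 3 * killingForm ℝ L z (θ z))) := by
  have h1 := nrm_lie c.hτ c.h c.hA hx (hx.lie (hx.lie hz))
  rw [c.f2 hx hz, kf_smul_smul, LinearMap.add_apply, LinearMap.add_apply, c.n2 hx hz] at h1
  have h2 := c.n1 hx hz
  have h3 : β (τ α) = -3 / 2 * α (τ α) := by linarith [c.ba]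
  have h4 : killingForm ℝ L ⁅x, z⁆ (θ ⁅x, z⁆) = -(3 / 2 * α (τ α) * (killingForm ℝ L x (θ x) * killingForm ℝ L z (θ z))) := by
    linarith
  rw [h1, h4, h3]
  ring

/-- vectors of weight `α + β` orthogonal to `[x, g_β]` -/
theorem G2E.orth (c : G2E θ b A τ α β) {x u : L} (hx : Wv A α x) (hu : Wv A (α + β) u)
    (ho : ∀ w, Wv A β w → killingForm ℝ L ⁅x, w⁆ (θ u) = 0) : ⁅x, ⁅x, u⁆⁆ = 0 := by
  have h3 : β (τ α) = -3 / 2 * α (τ α) := by linarith [c.ba]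
  -- `[θ x, u] = 0`
  have h1 : Wv A β ⁅θ x, u⁆ := by
    have := (hx.theta c.hA).lie hu
    rwa [neg_add_cancel_left] at this
  have h2 : ⁅θ x, u⁆ = 0 := by
    apply nrm_zero c.h
    have e1 := ho _ h1
    rw [← lie_skew, map_neg, LinearMap.neg_apply, neg_eq_zero, kf_inv] at e1
    rw [LieEquiv.map_lie, c.h.invol]
    exact e1
  have n1 := nrm_lie c.hτ c.h c.hA hx hu
  rw [h2, map_zero, LinearMap.zero_apply, zero_add, LinearMap.add_apply, h3] at n1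
  have f1 := th_lie_lie c.hτ c.h c.hA hx hu
  rw [h2, lie_zero, add_zero, LinearMap.add_apply, h3] at f1
  have n2 := nrm_lie c.hτ c.h c.hA hx (hx.lie hu)
  rw [f1, kf_smul_smul, n1, LinearMap.add_apply, LinearMap.add_apply, h3] at n2
  apply nrm_zero c.h
  rw [n2]
  ring

/-- `α + 2 β` is not a root -/
theorem G2E.abb (c : G2E θ b A τ α β) : β + (α + β) ∉ rootsL A := by
  intro hr
  have ab : α (τ β) = β (τ α) := tau_symm c.hτ α β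
  obtain ⟨n, hn, hr'⟩ := refl c.h c.hA c.hτ hr c.rb
  have h3 : β (τ α) = -3 / 2 * α (τ α) := by linarith [c.ba]
  rw [LinearMap.add_apply, LinearMap.add_apply, ab, h3, c.bb] at hn
  have hp := c.pos
  have hn3 : (n : ℝ) = 3 := by
    have h4 : (3 * α (τ α)) * ((n : ℝ) - 3) = 0 := by linear_combination -hn
    rcases mul_eq_zero.1 h4 with h5 | h5
    · linarith
    · linarith
  rw [hn3] at hr'
  have e : β + (α + β) - (3 : ℝ) • β = -(β - α) := by module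
  rw [e] at hr'
  refine c.d ?_
  obtain ⟨h0, x, hx0, hx⟩ := hr'
  have hx' : Wv A (-(β - α)) x := hx
  have h1 := hx'.theta c.hA
  rw [neg_neg] at h1
  exact ⟨c.d0, θ x, fun h2 => hx0 (by rw [← c.h.invol x, h2, map_zero]), h1⟩

theorem G2E.abb0 (c : G2E θ b A τ α β) : β + (α + β) ≠ 0 := by
  intro h0
  have h1 : (β + (α + β)) (τ β) = 0 := by rw [h0, LinearMap.zero_apply]
  have ab : α (τ β) = β (τ α) := tau_symm c.hτ α β
  rw [LinearMap.add_apply, LinearMap.add_apply, ab, c.bb] at h1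
  have := c.ba
  have := c.pos
  linarith

/-- `|[θ z, u]|² = (3 c / 2) |z|² |u|²`, `u` of weight `α + β` -/
theorem G2E.n1' (c : G2E θ b A τ α β) {z u : L} (hz : Wv A β z) (hu : Wv A (α + β) u) :
    2 * killingForm ℝ L ⁅θ z, u⁆ (θ ⁅θ z, u⁆) = -(3 * α (τ α) * (killingForm ℝ L z (θ z) * killingForm ℝ L u (θ u))) := by
  have h1 := nrm_lie c.hτ c.h c.hA hz hu
  have h2 : ⁅z, u⁆ = 0 := (hz.lie hu).eq_zero c.abb c.abb0
  have ab : α (τ β) = β (τ α) := tau_symm c.hτ α β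
  rw [h2, map_zero, LinearMap.zero_apply, LinearMap.add_apply, ab, c.bb] at h1
  have h3 := c.ba
  linear_combination (-2) * h1 - (killingForm ℝ L z (θ z) * killingForm ℝ L u (θ u)) * h3

end Pool.Agent.Helper68.AE
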