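import Mathlib

/-!
# Uniqueness of normed bilinear maps `[n, n, n]` (Hurwitz), for the edges of type `A_2`

`m : V × W → U`, all of dimension `n`, with `|m(x, z)| = |x| |z|`. Any two such maps with the same `n` are conjugate by isometries of `V` and `W` (up to an isometry of `U`).
Proof: with unit vectors `z₀`, `v` the space `W` becomes a unital composition algebra; a maximal subalgebra `G` of `W × W'` on which the two norms agree is the graph of an isomorphism: if not,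
take unit vectors `i`, `i'` orthogonal to the two projections and pass to `G + G (i, i')` (Cayley-Dickson doubling).
-/

set_option autoImplicit false

namespace Pool.Agent.Helper68.AE

open scoped RealInnerProductSpace

section Comp

variable {W : Type*} [NormedAddCommGroup W] [InnerProductSpace ℝ W]

/-- unital composition algebra -/
structure UComp (μ : W →ₗ[ℝ] W →ₗ[ℝ] W) (e : W) : Prop where
  norm : ∀ x y, ‖μ x y‖ = ‖x‖ * ‖y‖
  le : ∀ x, μ e x = x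
  re : ∀ x, μ x e = x
  one : ‖e‖ = 1

/-- conjugation -/
noncomputable def cjg (e x : W) : W := (2 * ⟪x, e⟫) • e - x

variable {μ : W →ₗ[ℝ] W →ₗ[ℝ] W} {e : W}

theorem UComp.inner_e (_h : UComp μ e) : ⟪e, e⟫ = 1 := by
  rw [real_inner_self_eq_norm_sq, _h.one, one_pow]

theorem UComp.left (h : UComp μ e) (x y w : W) : ⟪μ x y, μ x w⟫ = ⟪x, x⟫ * ⟪y, w⟫ := by
  have h1 := h.norm x (y + w)
  have h2 : ‖μ x (y + w)‖ ^ 2 = (‖x‖ * ‖y + w‖) ^ 2 := by rw [h1]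
  rw [map_add, norm_add_sq_real, mul_pow, norm_add_sq_real, h.norm, h.norm] at h2
  rw [real_inner_self_eq_norm_sq]
  linarith

theorem UComp.right (h : UComp μ e) (x z y : W) : ⟪μ x y, μ z y⟫ = ⟪x, z⟫ * ⟪y, y⟫ := by
  have h1 := h.norm (x + z) y
  have h2 : ‖μ (x + z) y‖ ^ 2 = (‖x + z‖ * ‖y‖) ^ 2 := by rw [h1]
  rw [map_add, LinearMap.add_apply, norm_add_sq_real, mul_pow, norm_add_sq_real, h.norm, h.norm] at h2
  rw [real_inner_self_eq_norm_sq]
  linarith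

theorem UComp.pol (h : UComp μ e) (x z y w : W) : ⟪μ x y, μ z w⟫ + ⟪μ z y, μ x w⟫ = 2 * ⟪x, z⟫ * ⟪y, w⟫ := by
  have h1 := h.left (x + z) y w
  simp only [map_add, LinearMap.add_apply, inner_add_left, inner_add_right] at h1
  have h2 := h.left x y w
  have h3 := h.left z y w
  rw [real_inner_comm x z] at h1
  linarith

theorem UComp.adjl (h : UComp μ e) (x y w : W) : ⟪μ x y, w⟫ = ⟪y, μ (cjg e x) w⟫ := by
  have h1 := h.pol x e y w
  rw [h.le, h.le] at h1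
  rw [cjg, map_sub, map_smul, LinearMap.sub_apply, LinearMap.smul_apply, h.le, inner_sub_right, inner_smul_right]
  linarith

theorem UComp.adjr (h : UComp μ e) (x y w : W) : ⟪μ x y, w⟫ = ⟪x, μ w (cjg e y)⟫ := by
  have h1 := h.pol x w y e
  rw [h.re, h.re] at h1
  rw [real_inner_comm x (μ w y)] at h1
  rw [cjg, map_sub, map_smul, h.re, inner_sub_right, inner_smul_right]
  linarith

theorem UComp.cj_cj (h : UComp μ e) (x : W) : cjg e (cjg e x) = x := by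
  have h1 : ⟪cjg e x, e⟫ = ⟪x, e⟫ := by
    rw [cjg, inner_sub_left, inner_smul_left, h.inner_e]
    simp only [conj_trivial]
    ring
  rw [cjg, h1, cjg, sub_sub_cancel]

theorem UComp.cj_inner (_h : UComp μ e) (x y : W) : ⟪cjg e x, y⟫ = ⟪x, cjg e y⟫ := by
  rw [cjg, cjg, inner_sub_left, inner_sub_right, inner_smul_left, inner_smul_right, real_inner_comm e y]
  simp only [conj_trivial]
  ring

theorem cj_add (e x y : W) : cjg e (x + y) = cjg e x + cjg e y := by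
  rw [cjg, cjg, cjg, inner_add_left]
  module

theorem cj_perp {x : W} (hx : ⟪x, e⟫ = 0) : cjg e x = -x := by
  rw [cjg, hx, mul_zero, zero_smul, zero_sub]

theorem UComp.cj_mul (h : UComp μ e) (x y : W) : cjg e (μ x y) = μ (cjg e y) (cjg e x) := by
  refine ext_inner_right ℝ fun z => ?_
  rw [h.cj_inner, h.adjl, h.adjl, h.cj_cj, real_inner_comm (μ y z) (cjg e x), h.adjr]

theorem UComp.canl (h : UComp μ e) (x z : W) : μ (cjg e x) (μ x z) = ⟪x, x⟫ • z := by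
  refine ext_inner_right ℝ fun w => ?_
  rw [h.adjl, h.cj_cj, h.left, inner_smul_left]
  simp

theorem UComp.canr (h : UComp μ e) (x z : W) : μ (μ z x) (cjg e x) = ⟪x, x⟫ • z := by
  refine ext_inner_right ℝ fun w => ?_
  rw [h.adjr, h.cj_cj, h.right, inner_smul_left]
  simp [mul_comm]

/-- linearised cancellation -/
theorem UComp.linl (h : UComp μ e) (x y z : W) : μ x (μ (cjg e y) z) + μ y (μ (cjg e x) z) = (2 * ⟪x, y⟫) • z := by
  have h1 : ∀ a, μ a (μ (cjg e a) z) = ⟪a, a⟫ • z := by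
    intro a
    have := h.canl (cjg e a) z
    rw [h.cj_cj, h.cj_inner, h.cj_cj] at this
    exact this
  have h2 := h1 (x + y)
  rw [cj_add] at h2
  simp only [map_add, LinearMap.add_apply] at h2
  have h3 := h1 x
  have h4 := h1 y
  rw [inner_add_left, inner_add_right, inner_add_right, real_inner_comm x y] at h2
  have h5 : μ x (μ (cjg e y) z) + μ y (μ (cjg e x) z) = (⟪x, x⟫ + ⟪x, y⟫ + (⟪x, y⟫ + ⟪y, y⟫)) • z - ⟪x, x⟫ • z - ⟪y, y⟫ • z := by
    rw [← h2, ← h3, ← h4]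
    abel
  rw [h5]
  module

theorem UComp.linr (h : UComp μ e) (x y z : W) : μ (μ z (cjg e x)) y + μ (μ z (cjg e y)) x = (2 * ⟪x, y⟫) • z := by
  have h1 : ∀ a, μ (μ z (cjg e a)) a = ⟪a, a⟫ • z := by
    intro a
    have := h.canr (cjg e a) z
    rw [h.cj_cj, h.cj_inner, h.cj_cj] at this
    exact this
  have h2 := h1 (x + y)
  rw [cj_add] at h2
  simp only [map_add, LinearMap.add_apply] at h2
  have h3 := h1 x
  have h4 := h1 y
  rw [inner_add_left, inner_add_right, inner_add_right, real_inner_comm x y] at h2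
  have h5 : μ (μ z (cjg e x)) y + μ (μ z (cjg e y)) x = (⟪x, x⟫ + ⟪x, y⟫ + (⟪x, y⟫ + ⟪y, y⟫)) • z - ⟪x, x⟫ • z - ⟪y, y⟫ • z := by
    rw [← h2, ← h3, ← h4]
    abel
  rw [h5]
  module

/-- unital subalgebra -/
structure USub (μ : W →ₗ[ℝ] W →ₗ[ℝ] W) (e : W) (B : Submodule ℝ W) : Prop where
  one : e ∈ B
  mul : ∀ x ∈ B, ∀ y ∈ B, μ x y ∈ B

theorem USub.cj {B : Submodule ℝ W} (hB : USub μ e B) {x : W} (hx : x ∈ B) : cjg e x ∈ B :=
  B.sub_mem (B.smul_mem _ hB.one) hx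

variable {B : Submodule ℝ W} {i : W}

theorem cj_neg_i (hB : USub μ e B) (hi : ∀ b ∈ B, ⟪b, i⟫ = 0) : cjg e i = -i :=
  cj_perp (by rw [real_inner_comm]; exact hi e hB.one)

theorem UComp.perp (h : UComp μ e) (hB : USub μ e B) (hi : ∀ b ∈ B, ⟪b, i⟫ = 0) {a b : W} (ha : a ∈ B) (hb : b ∈ B) :
    ⟪a, μ b i⟫ = 0 := by
  rw [real_inner_comm, h.adjl, real_inner_comm]
  exact hi _ (hB.mul _ (hB.cj hb) _ ha)

theorem UComp.comm_i (h : UComp μ e) (hB : USub μ e B) (hi : ∀ b ∈ B, ⟪b, i⟫ = 0) {b : W} (hb : b ∈ B) :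
    μ b i = μ i (cjg e b) := by
  have h1 : cjg e (μ b i) = -(μ b i) := by
    apply cj_perp
    rw [real_inner_comm]
    exact h.perp hB hi hB.one hb
  have h2 := h.cj_mul b i
  rw [h1, cj_neg_i hB hi, map_neg, LinearMap.neg_apply, neg_inj] at h2
  exact h2

theorem UComp.shift (h : UComp μ e) (hB : USub μ e B) (hi : ∀ b ∈ B, ⟪b, i⟫ = 0) {a : W} (ha : a ∈ B) (z : W) :
    μ a (μ i z) = μ i (μ (cjg e a) z) := by
  have h1 := h.linl a (-i) z
  have h2 : cjg e (-i) = i := by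
    rw [← cj_neg_i hB hi, h.cj_cj]
  rw [h2, inner_neg_right, hi a ha, neg_zero, mul_zero, zero_smul, map_neg, LinearMap.neg_apply] at h1
  exact eq_of_sub_eq_zero (by rw [sub_eq_add_neg]; exact h1)

theorem UComp.dbl1 (h : UComp μ e) (hB : USub μ e B) (hi : ∀ b ∈ B, ⟪b, i⟫ = 0) {a b : W} (ha : a ∈ B) (hb : b ∈ B) :
    μ a (μ b i) = μ (μ b a) i := by
  rw [h.comm_i hB hi hb, h.shift hB hi ha, ← h.cj_mul, ← h.comm_i hB hi (hB.mul _ hb _ ha)]

theorem UComp.dbl2 (h : UComp μ e) (hB : USub μ e B) (hi : ∀ b ∈ B, ⟪b, i⟫ = 0) (a : W) {b : W} (hb : b ∈ B) :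
    μ (μ a i) b = μ (μ a (cjg e b)) i := by
  have h1 := h.linr (-i) b a
  have h2 : cjg e (-i) = i := by
    rw [← cj_neg_i hB hi, h.cj_cj]
  rw [h2, inner_neg_left, real_inner_comm, hi b hb, neg_zero, mul_zero, zero_smul, map_neg] at h1
  exact eq_of_sub_eq_zero (by rw [sub_eq_add_neg]; exact h1)

theorem UComp.dbl3 (h : UComp μ e) (hB : USub μ e B) (hi : ∀ b ∈ B, ⟪b, i⟫ = 0) (hi1 : ⟪i, i⟫ = 1) {a b : W} (ha : a ∈ B) (hb : b ∈ B) :
    μ (μ a i) (μ b i) = -(μ (cjg e b) a) := by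
  have h2 : cjg e (-i) = i := by
    rw [← cj_neg_i hB hi, h.cj_cj]
  have h3 : cjg e (μ a i) = -(μ a i) := by
    apply cj_perp
    rw [real_inner_comm]
    exact h.perp hB hi hB.one ha
  have h1 := h.linl (μ a i) (-i) (cjg e b)
  have h4 : ⟪μ a i, i⟫ = ⟪a, e⟫ := by
    have := h.right a e i
    rw [h.le, hi1, mul_one] at this
    exact this
  have h5 : μ (μ a i) (cjg e b) = μ (μ a b) i := by
    rw [h.dbl2 hB hi a (hB.cj hb), h.cj_cj]
  have h6 : ∀ z, μ i (μ i z) = -z := by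
    intro z
    have := h.canl i z
    rw [cj_neg_i hB hi, hi1, one_smul, map_neg, LinearMap.neg_apply] at this
    exact neg_eq_iff_eq_neg.1 this
  rw [h2, h3, map_neg, map_neg, LinearMap.neg_apply, LinearMap.neg_apply, map_neg, neg_neg, h5, inner_neg_right, h4,
    h.comm_i hB hi (hB.mul _ ha _ hb), h6, h.cj_mul, ← h.comm_i hB hi hb] at h1
  have h7 : μ (μ a i) (μ b i) = (2 * -⟪a, e⟫) • cjg e b + μ (cjg e b) (cjg e a) := by
    rw [← h1]
    abel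
  rw [h7]
  conv_lhs => rw [show cjg e a = (2 * ⟪a, e⟫) • e - a from rfl]
  rw [map_sub, map_smul, h.re]
  module

end Comp

section Two

variable {W W' : Type*} [NormedAddCommGroup W] [InnerProductSpace ℝ W] [NormedAddCommGroup W'] [InnerProductSpace ℝ W']
  {μ : W →ₗ[ℝ] W →ₗ[ℝ] W} {e : W} {μ' : W' →ₗ[ℝ] W' →ₗ[ℝ] W'} {e' : W'}

/-- a subalgebra of the product on which the norms agree -/
structure Good (μ : W →ₗ[ℝ] W →ₗ[ℝ] W) (e : W) (μ' : W' →ₗ[ℝ] W' →ₗ[ℝ] W') (e' : W') (G : Submodule ℝ (W × W')) : Prop where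
  one : (e, e') ∈ G
  mul : ∀ p ∈ G, ∀ q ∈ G, (μ p.1 q.1, μ' p.2 q.2) ∈ G
  nrm : ∀ p ∈ G, ‖p.1‖ = ‖p.2‖

theorem Good.inner {G : Submodule ℝ (W × W')} (hG : Good μ e μ' e' G) {p q : W × W'} (hp : p ∈ G) (hq : q ∈ G) :
    ⟪p.1, q.1⟫ = ⟪p.2, q.2⟫ := by
  have h1 := hG.nrm _ (G.add_mem hp hq)
  have h2 : ‖(p + q).1‖ ^ 2 = ‖(p + q).2‖ ^ 2 := by rw [h1]
  rw [Prod.fst_add, Prod.snd_add, norm_add_sq_real, norm_add_sq_real, hG.nrm p hp, hG.nrm q hq] at h2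
  linarith

theorem Good.cjm {G : Submodule ℝ (W × W')} (hG : Good μ e μ' e' G) {p : W × W'} (hp : p ∈ G) :
    (cjg e p.1, cjg e' p.2) ∈ G := by
  have h1 := G.sub_mem (G.smul_mem (2 * ⟪p.1, e⟫) hG.one) hp
  have h2 : ⟪p.1, e⟫ = ⟪p.2, e'⟫ := hG.inner hp hG.one
  have h3 : ((2 * ⟪p.1, e⟫) • ((e, e') : W × W') - p) = (cjg e p.1, cjg e' p.2) := by
    refine Prod.ext ?_ ?_
    · rfl
    · change (2 * ⟪p.1, e⟫) • e' - p.2 = cjg e' p.2
      rw [h2]
      rfl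
  rwa [h3] at h1

theorem Good.sub1 {G : Submodule ℝ (W × W')} (hG : Good μ e μ' e' G) : USub μ e (G.map (LinearMap.fst ℝ W W')) where
  one := ⟨_, hG.one, rfl⟩
  mul := by
    rintro _ ⟨p, hp, rfl⟩ _ ⟨q, hq, rfl⟩
    exact ⟨_, hG.mul p hp q hq, rfl⟩

theorem Good.sub2 {G : Submodule ℝ (W × W')} (hG : Good μ e μ' e' G) : USub μ' e' (G.map (LinearMap.snd ℝ W W')) where
  one := ⟨_, hG.one, rfl⟩
  mul := by
    rintro _ ⟨p, hp, rfl⟩ _ ⟨q, hq, rfl⟩
    exact ⟨_, hG.mul p hp q hq, rfl⟩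

/-- multiplication by `(i, i')` from the right -/
noncomputable def Dm (μ : W →ₗ[ℝ] W →ₗ[ℝ] W) (μ' : W' →ₗ[ℝ] W' →ₗ[ℝ] W') (i : W) (i' : W') : (W × W') →ₗ[ℝ] (W × W') :=
  (μ.flip i).prodMap (μ'.flip i')

theorem Dm_apply (i : W) (i' : W') (p : W × W') : Dm μ μ' i i' p = (μ p.1 i, μ' p.2 i') := rfl

/-- the product in the doubled algebra -/
theorem UComp.dbl (h : UComp μ e) {B : Submodule ℝ W} (hB : USub μ e B) {i : W} (hi : ∀ b ∈ B, ⟪b, i⟫ = 0) (hi1 : ⟪i, i⟫ = 1)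
    {a b c d : W} (ha : a ∈ B) (hb : b ∈ B) (hc : c ∈ B) (hd : d ∈ B) :
    μ (a + μ b i) (c + μ d i) = (μ a c - μ (cjg e d) b) + μ (μ d a + μ b (cjg e c)) i := by
  simp only [map_add, LinearMap.add_apply]
  rw [h.dbl1 hB hi ha hd, h.dbl2 hB hi b hc, h.dbl3 hB hi hi1 hb hd]
  abel

theorem Good.double (h : UComp μ e) (h' : UComp μ' e') {G : Submodule ℝ (W × W')} (hG : Good μ e μ' e' G) {i : W} {i' : W'}
    (hi : ∀ b ∈ G.map (LinearMap.fst ℝ W W'), ⟪b, i⟫ = 0) (hi' : ∀ b ∈ G.map (LinearMap.snd ℝ W W'), ⟪b, i'⟫ = 0)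
    (hi1 : ⟪i, i⟫ = 1) (hi1' : ⟪i', i'⟫ = 1) : Good μ e μ' e' (G ⊔ G.map (Dm μ μ' i i')) where
  one := Submodule.mem_sup_left hG.one
  mul := by
    intro p hp q hq
    obtain ⟨a, ha, _, ⟨b, hb, rfl⟩, rfl⟩ := Submodule.mem_sup.1 hp
    obtain ⟨c, hc, _, ⟨d, hd, rfl⟩, rfl⟩ := Submodule.mem_sup.1 hq
    have h1 := h.dbl hG.sub1 hi hi1 (⟨a, ha, rfl⟩ : a.1 ∈ G.map (LinearMap.fst ℝ W W')) (⟨b, hb, rfl⟩ : b.1 ∈ G.map (LinearMap.fst ℝ W W'))
      (⟨c, hc, rfl⟩ : c.1 ∈ G.map (LinearMap.fst ℝ W W')) (⟨d, hd, rfl⟩ : d.1 ∈ G.map (LinearMap.fst ℝ W W'))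
    have h2 := h'.dbl hG.sub2 hi' hi1' (⟨a, ha, rfl⟩ : a.2 ∈ G.map (LinearMap.snd ℝ W W')) (⟨b, hb, rfl⟩ : b.2 ∈ G.map (LinearMap.snd ℝ W W'))
      (⟨c, hc, rfl⟩ : c.2 ∈ G.map (LinearMap.snd ℝ W W')) (⟨d, hd, rfl⟩ : d.2 ∈ G.map (LinearMap.snd ℝ W W'))
    have h3 : (μ (a + Dm μ μ' i i' b).1 (c + Dm μ μ' i i' d).1, μ' (a + Dm μ μ' i i' b).2 (c + Dm μ μ' i i' d).2) =
        ((μ a.1 c.1, μ' a.2 c.2) - (μ (cjg e d.1) b.1, μ' (cjg e' d.2) b.2)) +
          Dm μ μ' i i' ((μ d.1 a.1, μ' d.2 a.2) + (μ b.1 (cjg e c.1), μ' b.2 (cjg e' c.2))) := Prod.ext h1 h2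
    rw [h3]
    refine Submodule.add_mem_sup (G.sub_mem (hG.mul a ha c hc) (hG.mul _ (hG.cjm hd) b hb)) ⟨_, ?_, rfl⟩
    exact G.add_mem (hG.mul d hd a ha) (hG.mul b hb _ (hG.cjm hc))
  nrm := by
    intro p hp
    obtain ⟨a, ha, _, ⟨b, hb, rfl⟩, rfl⟩ := Submodule.mem_sup.1 hp
    have n1 : ‖i‖ = 1 := by
      rw [real_inner_self_eq_norm_sq] at hi1
      exact (pow_eq_one_iff_of_nonneg (norm_nonneg _) two_ne_zero).1 hi1
    have n2 : ‖i'‖ = 1 := by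
      rw [real_inner_self_eq_norm_sq] at hi1'
      exact (pow_eq_one_iff_of_nonneg (norm_nonneg _) two_ne_zero).1 hi1'
    have h1 : ⟪a.1, μ b.1 i⟫ = 0 := h.perp hG.sub1 hi ⟨a, ha, rfl⟩ ⟨b, hb, rfl⟩
    have h2 : ⟪a.2, μ' b.2 i'⟫ = 0 := h'.perp hG.sub2 hi' ⟨a, ha, rfl⟩ ⟨b, hb, rfl⟩
    have h3 : ‖(a + Dm μ μ' i i' b).1‖ ^ 2 = ‖(a + Dm μ μ' i i' b).2‖ ^ 2 := by
      change ‖a.1 + μ b.1 i‖ ^ 2 = ‖a.2 + μ' b.2 i'‖ ^ 2
      rw [norm_add_sq_real, norm_add_sq_real, h1, h2, h.norm, h'.norm, n1, n2, hG.nrm a ha, hG.nrm b hb]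
    exact (pow_left_inj₀ (norm_nonneg _) (norm_nonneg _) two_ne_zero).1 h3

/-- unit vectors orthogonal to a proper subspace -/
theorem exists_unit_perp [FiniteDimensional ℝ W] {B : Submodule ℝ W} (hB : B ≠ ⊤) : ∃ i : W, (∀ b ∈ B, ⟪b, i⟫ = 0) ∧ ⟪i, i⟫ = 1 := by
  have h1 : Bᗮ ≠ ⊥ := by
    intro h0
    exact hB ((Submodule.orthogonal_eq_bot_iff).1 h0)
  obtain ⟨u, hu, hu0⟩ := Submodule.exists_mem_ne_zero_of_ne_bot h1
  have h2 : ‖u‖ ≠ 0 := norm_ne_zero_iff.2 hu0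
  refine ⟨‖u‖⁻¹ • u, fun b hb => ?_, ?_⟩
  · rw [inner_smul_right, (Submodule.mem_orthogonal _ _).1 hu b hb, mul_zero]
  · rw [inner_smul_right, inner_smul_left, real_inner_self_eq_norm_sq]
    simp only [conj_trivial]
    field_simp

/-- **Hurwitz**: unital composition algebras of the same dimension are isomorphic. -/
theorem hurwitz_iso [FiniteDimensional ℝ W] [FiniteDimensional ℝ W'] (h : UComp μ e) (h' : UComp μ' e')
    (hd : Module.finrank ℝ W = Module.finrank ℝ W') : ∃ g : W ≃ₗᵢ[ℝ] W', g e = e' ∧ ∀ x y, g (μ x y) = μ' (g x) (g y) := by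
  obtain ⟨G, hG, hmax⟩ := set_has_maximal_iff_noetherian.2 (inferInstance : IsNoetherian ℝ (W × W')) {G | Good μ e μ' e' G} (by
    refine ⟨Submodule.span ℝ {(e, e')}, ?_, ?_, ?_⟩
    · exact Submodule.mem_span_singleton_self _
    · intro p hp q hq
      obtain ⟨a, rfl⟩ := Submodule.mem_span_singleton.1 hp
      obtain ⟨c, rfl⟩ := Submodule.mem_span_singleton.1 hq
      refine Submodule.mem_span_singleton.2 ⟨a * c, ?_⟩
      refine Prod.ext ?_ ?_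
      · change (a * c) • e = μ (a • e) (c • e)
        rw [map_smul, h.re, smul_smul, mul_comm]
      · change (a * c) • e' = μ' (a • e') (c • e')
        rw [map_smul, h'.re, smul_smul, mul_comm]
    · intro p hp
      obtain ⟨a, rfl⟩ := Submodule.mem_span_singleton.1 hp
      change ‖a • e‖ = ‖a • e'‖
      rw [norm_smul, norm_smul, h.one, h'.one])
  have i1 : Function.Injective ((LinearMap.fst ℝ W W').comp G.subtype) := by
    rw [← LinearMap.ker_eq_bot, LinearMap.ker_eq_bot']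
    rintro ⟨p, hp⟩ h0
    have h0' : p.1 = 0 := h0
    have h1 := hG.nrm p hp
    rw [h0', norm_zero] at h1
    exact Subtype.ext (Prod.ext h0' (norm_eq_zero.1 h1.symm))
  have i2 : Function.Injective ((LinearMap.snd ℝ W W').comp G.subtype) := by
    rw [← LinearMap.ker_eq_bot, LinearMap.ker_eq_bot']
    rintro ⟨p, hp⟩ h0
    have h0' : p.2 = 0 := h0
    have h1 := hG.nrm p hp
    rw [h0', norm_zero] at h1
    exact Subtype.ext (Prod.ext (norm_eq_zero.1 h1) h0')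
  have r1 : Module.finrank ℝ (G.map (LinearMap.fst ℝ W W')) = Module.finrank ℝ G := by
    rw [← LinearMap.finrank_range_of_inj i1, LinearMap.range_comp, Submodule.range_subtype]
  have r2 : Module.finrank ℝ (G.map (LinearMap.snd ℝ W W')) = Module.finrank ℝ G := by
    rw [← LinearMap.finrank_range_of_inj i2, LinearMap.range_comp, Submodule.range_subtype]
  have htop : G.map (LinearMap.fst ℝ W W') = ⊤ ∧ G.map (LinearMap.snd ℝ W W') = ⊤ := by
    by_cases hc : Module.finrank ℝ G = Module.finrank ℝ W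
    · exact ⟨Submodule.eq_top_of_finrank_eq (by rw [r1, hc]), Submodule.eq_top_of_finrank_eq (by rw [r2, hc, hd])⟩
    · exfalso
      obtain ⟨i, hi, hi1⟩ := exists_unit_perp (B := G.map (LinearMap.fst ℝ W W')) (fun h0 => hc (by rw [← r1, h0, finrank_top]))
      obtain ⟨i', hi', hi1'⟩ := exists_unit_perp (B := G.map (LinearMap.snd ℝ W W')) (fun h0 => hc (by rw [← r2, h0, finrank_top, hd]))
      refine hmax _ (hG.double h h' hi hi' hi1 hi1') (lt_of_le_of_ne le_sup_left ?_)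
      intro h0
      have h1 : Dm μ μ' i i' (e, e') ∈ G ⊔ G.map (Dm μ μ' i i') := Submodule.mem_sup_right ⟨_, hG.one, rfl⟩
      rw [← h0, Dm_apply, h.le] at h1
      have h2 := hi i ⟨_, h1, rfl⟩
      rw [hi1] at h2
      exact one_ne_zero h2
  have s1 : Function.Surjective ((LinearMap.fst ℝ W W').comp G.subtype) := by
    rw [← LinearMap.range_eq_top, LinearMap.range_comp, Submodule.range_subtype, htop.1]
  have s2 : Function.Surjective ((LinearMap.snd ℝ W W').comp G.subtype) := by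
    rw [← LinearMap.range_eq_top, LinearMap.range_comp, Submodule.range_subtype, htop.2]
  let E1 := LinearEquiv.ofBijective _ ⟨i1, s1⟩
  let E2 := LinearEquiv.ofBijective _ ⟨i2, s2⟩
  have hE : ∀ x : W, (x, E2 (E1.symm x)) ∈ G := by
    intro x
    have h1 := (E1.symm x).2
    have h2 : ((E1.symm x : G) : W × W').1 = x := E1.apply_symm_apply x
    have h3 : ((E1.symm x : G) : W × W') = (x, E2 (E1.symm x)) := Prod.ext h2 rfl
    rwa [h3] at h1
  have huniq : ∀ p ∈ G, E2 (E1.symm p.1) = p.2 := by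
    intro p hp
    have h1 : E1 ⟨p, hp⟩ = p.1 := rfl
    rw [← h1, E1.symm_apply_apply]
    rfl
  refine ⟨⟨E1.symm.trans E2, fun x => ?_⟩, ?_, ?_⟩
  · exact (hG.nrm _ (hE x)).symm
  · exact huniq _ hG.one
  · intro x y
    exact huniq _ (hG.mul _ (hE x) _ (hE y))

end Two

section Norm

variable {V W U V' W' U' : Type*} [NormedAddCommGroup V] [InnerProductSpace ℝ V] [NormedAddCommGroup W] [InnerProductSpace ℝ W]
  [NormedAddCommGroup U] [InnerProductSpace ℝ U] [NormedAddCommGroup V'] [InnerProductSpace ℝ V'] [NormedAddCommGroup W']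
  [InnerProductSpace ℝ W'] [NormedAddCommGroup U'] [InnerProductSpace ℝ U'] [FiniteDimensional ℝ V] [FiniteDimensional ℝ W]
  [FiniteDimensional ℝ U] [FiniteDimensional ℝ V'] [FiniteDimensional ℝ W'] [FiniteDimensional ℝ U']

/-- A normed bilinear map `[n, n, n]` comes from a unital composition algebra on `W`. -/
theorem to_comp (m : V →ₗ[ℝ] W →ₗ[ℝ] U) (hm : ∀ x z, ‖m x z‖ = ‖x‖ * ‖z‖) (h1 : Module.finrank ℝ V = Module.finrank ℝ W)
    (h2 : Module.finrank ℝ U = Module.finrank ℝ W) (h0 : 0 < Module.finrank ℝ W) :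
    ∃ (μ : W →ₗ[ℝ] W →ₗ[ℝ] W) (e : W) (E : W ≃ₗᵢ[ℝ] V) (C : W ≃ₗᵢ[ℝ] U), UComp μ e ∧ ∀ u z, m (E u) z = C (μ z u) := by
  have hW : Nontrivial W := Module.finrank_pos_iff.1 h0
  have hV : Nontrivial V := Module.finrank_pos_iff.1 (by rw [h1]; exact h0)
  obtain ⟨e, he⟩ := exists_norm_eq W zero_le_one
  obtain ⟨v, hv⟩ := exists_norm_eq V zero_le_one
  let C0 : V →ₗᵢ[ℝ] U := ⟨m.flip e, fun x => by
    change ‖m x e‖ = ‖x‖
    rw [hm, he, mul_one]⟩
  let C1 : V ≃ₗᵢ[ℝ] U := C0.toLinearIsometryEquiv (by rw [h1, h2])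
  let E0 : W →ₗᵢ[ℝ] V := C1.symm.toLinearIsometry.comp ⟨m v, fun z => by rw [hm, hv, one_mul]⟩
  let E : W ≃ₗᵢ[ℝ] V := E0.toLinearIsometryEquiv h1.symm
  have hC1 : ∀ x, C1 x = m x e := fun x => rfl
  have hE : ∀ z, E z = C1.symm (m v z) := fun z => rfl
  have hEe : E e = v := by
    rw [hE, ← hC1, C1.symm_apply_apply]
  let μ : W →ₗ[ℝ] W →ₗ[ℝ] W := LinearMap.mk₂ ℝ (fun z u => E.symm (C1.symm (m (E u) z)))
    (fun z z' u => by rw [map_add, map_add, map_add])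
    (fun c z u => by rw [map_smul, map_smul, map_smul])
    (fun z u u' => by rw [map_add, map_add, LinearMap.add_apply, map_add, map_add])
    (fun c z u => by rw [map_smul, map_smul, LinearMap.smul_apply, map_smul, map_smul])
  have hμ : ∀ z u, μ z u = E.symm (C1.symm (m (E u) z)) := fun z u => rfl
  refine ⟨μ, e, E, E.trans C1, ⟨?_, ?_, ?_, he⟩, ?_⟩
  · intro x y
    rw [hμ, LinearIsometryEquiv.norm_map, LinearIsometryEquiv.norm_map, hm, LinearIsometryEquiv.norm_map, mul_comm]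
  · intro x
    rw [hμ, ← hC1, C1.symm_apply_apply, E.symm_apply_apply]
  · intro x
    rw [hμ, hEe, ← hE, E.symm_apply_apply]
  · intro u z
    rw [LinearIsometryEquiv.trans_apply, hμ, E.apply_symm_apply, C1.apply_symm_apply]

/-- **Uniqueness of normed bilinear maps `[n, n, n]`.** -/
theorem norm_unique (m : V →ₗ[ℝ] W →ₗ[ℝ] U) (m' : V' →ₗ[ℝ] W' →ₗ[ℝ] U') (hm : ∀ x z, ‖m x z‖ = ‖x‖ * ‖z‖)
    (hm' : ∀ x z, ‖m' x z‖ = ‖x‖ * ‖z‖) (h1 : Module.finrank ℝ V = Module.finrank ℝ W) (h2 : Module.finrank ℝ U = Module.finrank ℝ W)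
    (h3 : Module.finrank ℝ W' = Module.finrank ℝ W) (h4 : Module.finrank ℝ V' = Module.finrank ℝ W)
    (h5 : Module.finrank ℝ U' = Module.finrank ℝ W) :
    ∃ (f : V ≃ₗᵢ[ℝ] V') (g : W ≃ₗᵢ[ℝ] W') (k : U ≃ₗᵢ[ℝ] U'), ∀ x z, m' (f x) (g z) = k (m x z) := by
  rcases Nat.eq_zero_or_pos (Module.finrank ℝ W) with h0 | h0
  · obtain ⟨f⟩ : Nonempty (V ≃ₗᵢ[ℝ] V') := ⟨(stdOrthonormalBasis ℝ V).equiv (stdOrthonormalBasis ℝ V') (finCongr (by rw [h1, h4]))⟩
    obtain ⟨g⟩ : Nonempty (W ≃ₗᵢ[ℝ] W') := ⟨(stdOrthonormalBasis ℝ W).equiv (stdOrthonormalBasis ℝ W') (finCongr (by rw [h3]))⟩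
    obtain ⟨k⟩ : Nonempty (U ≃ₗᵢ[ℝ] U') := ⟨(stdOrthonormalBasis ℝ U).equiv (stdOrthonormalBasis ℝ U') (finCongr (by rw [h2, h5]))⟩
    have hU : Subsingleton U' := Module.finrank_zero_iff.1 (by rw [h5, h0])
    exact ⟨f, g, k, fun x z => Subsingleton.elim _ _⟩
  · obtain ⟨μ, e, E, C, hμ, hE⟩ := to_comp m hm h1 h2 h0
    obtain ⟨μ', e', E', C', hμ', hE'⟩ := to_comp m' hm' (by rw [h4, h3]) (by rw [h5, h3]) (by rw [h3]; exact h0)
    obtain ⟨g, -, hg⟩ := hurwitz_iso hμ hμ' h3.symm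
    refine ⟨(E.symm.trans g).trans E', g, (C.symm.trans g).trans C', fun x z => ?_⟩
    have hx : x = E (E.symm x) := (E.apply_symm_apply x).symm
    rw [LinearIsometryEquiv.trans_apply, LinearIsometryEquiv.trans_apply, hE', LinearIsometryEquiv.trans_apply,
      LinearIsometryEquiv.trans_apply]
    conv_rhs => rw [hx, hE, C.symm_apply_apply, hg]

end Norm

end Pool.Agent.Helper68.AE
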