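import Pool.Agent.Helper68.AE.G2L
import Pool.Agent.Helper95.AE.Wrap
import Pool.Agent.Helper25.AE.Tens
import Pool.Agent.Helper68.AE.Hur

/-!
# The edge of type `G_2`: the multiplicities are equal and at most two, and the tensor of the edge is unique
-/

set_option autoImplicit false

namespace Pool.Agent.Helper68.AE

open Pool.Agent.Helper96.SA Pool.Agent.Helper96.TO Pool.Agent.Helper69.SLN Pool.Agent.Helper77.TZ2 Pool.Agent.Helper77.LA
  Pool.Agent.Helper77.ST Pool.Agent.Helper95.AE Pool.Agent.Helper25.AE Pool.Agent.Helper77.AE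

open scoped RealInnerProductSpace

variable {L : Type} [LieRing L] [LieAlgebra ℝ L] {N : ℕ} {θ : L ≃ₗ⁅ℝ⁆ L} {b : Module.Basis (Fin N) ℝ L} {A : Submodule ℝ L}
  {τ : Module.Dual ℝ A ≃ₗ[ℝ] A} {α β : Module.Dual ℝ A}

/-- the normalising factor -/
theorem G2E.nu (c : G2E θ b A τ α β) : 0 < 3 / 2 * α (τ α) := by
  have := c.pos
  positivity

theorem G2E.d' (c : G2E θ b A τ α β) : α - β ∉ rootsL A := fun h => c.d (by
  have := neg_mem_rootsL c.hA h
  rwa [neg_sub] at this)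

theorem G2E.d0' (c : G2E θ b A τ α β) : α - β ≠ 0 := fun h => c.d0 (by
  rw [← neg_sub, h, neg_zero])

theorem G2E.nm (c : G2E θ b A τ α β) (x : rsp A α) (z : rsp A β) :
    letI := nacg c.h c.nu
    letI := ips c.h c.nu
    ‖brk A α β (α + β) rfl x z‖ = ‖x‖ * ‖z‖ :=
  norm_lie c.hτ c.h c.hA c.nu c.d0' c.d' (by linarith [c.ba]) x.2 z.2

/-- the norm in terms of the Killing form -/
theorem nsq (h : CartanBasis θ b) {ν : ℝ} (hν : 0 < ν) (x : L) :
    letI := nacg h hν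
    letI := ips h hν
    ‖x‖ ^ 2 = -(ν * killingForm ℝ L x (θ x)) := by
  let _ := nacg h hν
  let _ := ips h hν
  rw [← real_inner_self_eq_norm_sq]
  rfl

theorem G2E.finU (c : G2E θ b A τ α β) : Module.finrank ℝ (rsp A (α + β)) = Module.finrank ℝ (rsp A α) := by
  have hF : Module.Finite ℝ L := Module.Finite.of_basis b
  obtain ⟨-, z, hz0, hz⟩ := c.rb
  have hz' : Wv A β z := hz
  have hp := c.pos
  have pz := Pool.Agent.Helper69.SLN.pos c.h hz0
  apply le_antisymm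
  · let f : rsp A (α + β) →ₗ[ℝ] rsp A α :=
      { toFun := fun u => ⟨⁅θ z, (u : L)⁆, by
          have := (hz'.theta c.hA).lie u.2
          rwa [show -β + (α + β) = α by abel] at this⟩
        map_add' := fun u v => Subtype.ext (by simp)
        map_smul' := fun t u => Subtype.ext (by simp) }
    refine LinearMap.finrank_le_finrank_of_injective (f := f) ?_
    rw [← LinearMap.ker_eq_bot, LinearMap.ker_eq_bot']
    intro u hu
    have h1 : ⁅θ z, (u : L)⁆ = 0 := congrArg Subtype.val hu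
    have h2 := c.n1' hz' u.2
    rw [h1, map_zero, LinearMap.zero_apply, mul_zero] at h2
    apply Subtype.ext
    apply nrm_zero c.h
    have h3 : (α (τ α) * -killingForm ℝ L z (θ z)) * killingForm ℝ L (u : L) (θ (u : L)) = 0 := by linarith
    exact (mul_eq_zero.1 h3).resolve_left (mul_pos hp pz).ne'
  · refine LinearMap.finrank_le_finrank_of_injective (f := (brk A α β (α + β) rfl).flip ⟨z, hz⟩) ?_
    rw [← LinearMap.ker_eq_bot, LinearMap.ker_eq_bot']
    intro x hx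
    have h1 : ⁅(x : L), z⁆ = 0 := congrArg Subtype.val hx
    have h2 := c.n1 x.2 hz'
    rw [h1, map_zero, LinearMap.zero_apply, mul_zero] at h2
    apply Subtype.ext
    apply nrm_zero c.h
    have h3 : (α (τ α) * -killingForm ℝ L z (θ z)) * killingForm ℝ L (x : L) (θ (x : L)) = 0 := by linarith
    exact (mul_eq_zero.1 h3).resolve_left (mul_pos hp pz).ne'

theorem G2E.finW (c : G2E θ b A τ α β) : Module.finrank ℝ (rsp A β) = Module.finrank ℝ (rsp A α) ∧ Module.finrank ℝ (rsp A α) ≤ 2 := by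
  have hF : Module.Finite ℝ L := Module.Finite.of_basis b
  let _ := nacg c.h c.nu
  let _ := ips c.h c.nu
  have hp := c.pos
  obtain ⟨-, x0, hx0, hx⟩ := c.ra
  obtain ⟨-, z1, hz1, hz⟩ := c.rb
  have hV : 0 < Module.finrank ℝ (rsp A α) := by
    have : Nontrivial (rsp A α) := ⟨⟨⟨x0, hx⟩, 0, fun h => hx0 (congrArg Subtype.val h)⟩⟩
    exact Module.finrank_pos
  have hW : Nontrivial (rsp A β) := ⟨⟨⟨z1, hz⟩, 0, fun h => hz1 (congrArg Subtype.val h)⟩⟩
  obtain ⟨z₀, hz₀⟩ := exists_norm_eq (rsp A β) zero_le_one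
  have kz : killingForm ℝ L (z₀ : L) (θ (z₀ : L)) * (3 / 2 * α (τ α)) = -1 := by
    have h1 := nsq c.h c.nu (z₀ : L)
    have h2 : ‖(z₀ : L)‖ = 1 := hz₀
    rw [h2, one_pow] at h1
    linarith
  let p := brk A α (α + β) (α + (α + β)) rfl
  let q := brk A α (α + (α + β)) (α + (α + (α + β))) rfl
  have pe : ∀ (x : rsp A α) (u : rsp A (α + β)), ((p x u : rsp A (α + (α + β))) : L) = ⁅(x : L), (u : L)⁆ := fun x u => rfl
  have qe : ∀ (x : rsp A α) (u : rsp A (α + (α + β))), ((q x u : rsp A (α + (α + (α + β)))) : L) = ⁅(x : L), (u : L)⁆ := fun x u => rfl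
  have me : ∀ (x : rsp A α) (z : rsp A β), ((brk A α β (α + β) rfl x z : rsp A (α + β)) : L) = ⁅(x : L), (z : L)⁆ := fun x u => rfl
  have h1 : Module.finrank ℝ (rsp A β) = Module.finrank ℝ (rsp A α) := by
    refine g2_eq (brk A α β (α + β) rfl) p q (κ := Real.sqrt (4 / 3)) hz₀ c.nm hV c.finU ?_ ?_ (by positivity) ?_ ?_
    · intro x y v
      apply Subtype.ext
      rw [qe, qe, pe, pe]
      exact c.swap x.2 y.2 _
    · intro x y v
      apply Subtype.ext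
      rw [qe, qe, pe, pe, me, me, c.swap y.2 v.2]
    · intro x
      have n3 := c.n3 x.2 z₀.2
      have e1 : ‖q x (p x (brk A α β (α + β) rfl x z₀))‖ ^ 2 = 4 / 3 * (‖x‖ ^ 2) ^ 3 := by
        have e2 := nsq c.h c.nu (⁅(x : L), ⁅(x : L), ⁅(x : L), (z₀ : L)⁆⁆⁆)
        have e3 := nsq c.h c.nu (x : L)
        change ‖(⁅(x : L), ⁅(x : L), ⁅(x : L), (z₀ : L)⁆⁆⁆ : L)‖ ^ 2 = 4 / 3 * (‖(x : L)‖ ^ 2) ^ 3
        rw [e2, e3]
        linear_combination (-(3 / 4) * α (τ α)) * n3 + (9 / 2 * α (τ α) ^ 3 * killingForm ℝ L (x : L) (θ (x : L)) ^ 3) * kz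
      have e4 : ‖q x (p x (brk A α β (α + β) rfl x z₀))‖ ^ 2 = (Real.sqrt (4 / 3) * ‖x‖ ^ 3) ^ 2 := by
        rw [e1, mul_pow, Real.sq_sqrt (by norm_num)]
        ring
      exact (pow_left_inj₀ (norm_nonneg _) (by positivity) two_ne_zero).1 e4
    · intro x u hu
      apply Subtype.ext
      rw [qe, pe]
      refine c.orth x.2 u.2 fun w hw => ?_
      have h2 : ip θ (3 / 2 * α (τ α)) ⁅(x : L), w⁆ (u : L) = 0 := hu ⟨w, hw⟩
      rw [ip, neg_eq_zero] at h2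
      exact (mul_eq_zero.1 h2).resolve_left c.nu.ne'
  refine ⟨h1, ?_⟩
  refine g2_le (brk A α β (α + β) rfl) p (lam := Real.sqrt (4 / 3)) hz₀ c.nm c.finU h1 ?_ (by positivity) ?_
  · intro x y
    apply Subtype.ext
    rw [pe, pe, me, me]
    exact c.swap x.2 y.2 _
  · intro x w
    have n2 := c.n2 x.2 w.2
    have e1 : ‖p x (brk A α β (α + β) rfl x w)‖ ^ 2 = 4 / 3 * ((‖x‖ ^ 2) ^ 2 * ‖w‖ ^ 2) := by
      have e2 := nsq c.h c.nu (⁅(x : L), ⁅(x : L), (w : L)⁆⁆)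
      have e3 := nsq c.h c.nu (x : L)
      have e4 := nsq c.h c.nu (w : L)
      change ‖(⁅(x : L), ⁅(x : L), (w : L)⁆⁆ : L)‖ ^ 2 = 4 / 3 * ((‖(x : L)‖ ^ 2) ^ 2 * ‖(w : L)‖ ^ 2)
      rw [e2, e3, e4, n2]
      ring
    have e4 : ‖p x (brk A α β (α + β) rfl x w)‖ ^ 2 = (Real.sqrt (4 / 3) * ‖x‖ ^ 2 * ‖w‖) ^ 2 := by
      rw [e1, mul_pow, mul_pow, Real.sq_sqrt (by norm_num)]
      ring
    exact (pow_left_inj₀ (norm_nonneg _) (by positivity) two_ne_zero).1 e4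

section Two

variable {L' : Type} [LieRing L'] [LieAlgebra ℝ L'] {N' : ℕ} {θ' : L' ≃ₗ⁅ℝ⁆ L'} {b' : Module.Basis (Fin N') ℝ L'}
  {A' : Submodule ℝ L'} {τ' : Module.Dual ℝ A' ≃ₗ[ℝ] A'} {α' β' : Module.Dual ℝ A'}

/-- extension of an isometry of root spaces -/
theorem exists_of_equiv {φ : Module.Dual ℝ A} {φ' : Module.Dual ℝ A'} {ν ν' : ℝ} (f : rsp A φ ≃ₗ[ℝ] rsp A' φ')
    (hf : ∀ x y : rsp A φ, ν' * killingForm ℝ L' (f x : L') (θ' (f y : L')) = ν * killingForm ℝ L (x : L) (θ (y : L))) :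
    ∃ F : L →ₗ[ℝ] L', (∀ x : rsp A φ, F (x : L) = f x) ∧ ∀ s s' : ℝ, ν ≠ 0 → s * ν' = s' * ν → IsoOn θ θ' s s' φ φ' F := by
  obtain ⟨F, hF⟩ := LinearMap.exists_extend ((rsp A' φ').subtype.comp (f : rsp A φ →ₗ[ℝ] rsp A' φ'))
  have hF' : ∀ x : rsp A φ, F (x : L) = f x := fun x => LinearMap.congr_fun hF x
  refine ⟨F, hF', fun s s' hν hs => ⟨?_, ?_, ?_⟩⟩
  · intro x hx
    rw [hF' ⟨x, hx⟩]
    exact (f ⟨x, hx⟩).2
  · intro y hy
    refine ⟨f.symm ⟨y, hy⟩, (f.symm ⟨y, hy⟩).2, ?_⟩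
    rw [hF', f.apply_symm_apply]
  · intro x y hx hy
    have h1 := hf ⟨x, hx⟩ ⟨y, hy⟩
    rw [hF' ⟨x, hx⟩, hF' ⟨y, hy⟩]
    refine mul_left_cancel₀ hν ?_
    linear_combination (-killingForm ℝ L' (f ⟨x, hx⟩ : L') (θ' (f ⟨y, hy⟩ : L'))) * hs + s * h1

/-- **Uniqueness of the edge of type `G_2`.** -/
theorem g2_tc (c : G2E θ b A τ α β) (c' : G2E θ' b' A' τ' α' β')
    (hd : Module.finrank ℝ (rsp A α) = Module.finrank ℝ (rsp A' α')) :
    ∃ F G : L →ₗ[ℝ] L', IsoOn θ θ' (α (τ α)) (α' (τ' α')) α α' F ∧ IsoOn θ θ' (β (τ β)) (β' (τ' β')) β β' G ∧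
      TC θ θ' A (β (τ β)) (β' (τ' β')) α β F G ∧ TC θ θ' A (α (τ α)) (α' (τ' α')) β α G F := by
  have hF : Module.Finite ℝ L := Module.Finite.of_basis b
  have hF' : Module.Finite ℝ L' := Module.Finite.of_basis b'
  let _ := nacg c.h c.nu
  let _ := ips c.h c.nu
  let _ := nacg c'.h c'.nu
  let _ := ips c'.h c'.nu
  obtain ⟨f, g, k, hk⟩ := norm_unique (brk A α β (α + β) rfl) (brk A' α' β' (α' + β') rfl) c.nm c'.nm
    c.finW.1.symm (by rw [c.finU, c.finW.1]) (by rw [c.finW.1, c'.finW.1, hd]) (by rw [c.finW.1, hd]) (by rw [c'.finU, c.finW.1, hd])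
  have hf : ∀ x y : rsp A α, (3 / 2 * α' (τ' α')) * killingForm ℝ L' (f x : L') (θ' (f y : L')) =
      (3 / 2 * α (τ α)) * killingForm ℝ L (x : L) (θ (y : L)) := fun x y => neg_injective (f.inner_map_map x y)
  have hg : ∀ x y : rsp A β, (3 / 2 * α' (τ' α')) * killingForm ℝ L' (g x : L') (θ' (g y : L')) =
      (3 / 2 * α (τ α)) * killingForm ℝ L (x : L) (θ (y : L)) := fun x y => neg_injective (g.inner_map_map x y)
  have hm : ∀ (x y : rsp A α) (v w : rsp A β), (3 / 2 * α' (τ' α')) * tn θ' (f x : L') (g v : L') (f y : L') (g w : L') =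
      (3 / 2 * α (τ α)) * tn θ (x : L) (v : L) (y : L) (w : L) := by
    intro x y v w
    have h1 := k.inner_map_map (brk A α β (α + β) rfl x v) (brk A α β (α + β) rfl y w)
    rw [← hk, ← hk] at h1
    exact neg_injective h1
  obtain ⟨F, hF1, hF2⟩ := exists_of_equiv (θ := θ) (θ' := θ') f.toLinearEquiv hf
  obtain ⟨G, hG1, hG2⟩ := exists_of_equiv (θ := θ) (θ' := θ') g.toLinearEquiv hg
  have p := c.pos
  have p' := c'.pos
  have hT : TC θ θ' A (β (τ β)) (β' (τ' β')) α β F G := by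
    intro x y v w hx hy hv hw
    have h1 := hm ⟨x, hx⟩ ⟨y, hy⟩ ⟨v, hv⟩ ⟨w, hw⟩
    have e1 : F x = (f ⟨x, hx⟩ : L') := hF1 ⟨x, hx⟩
    have e2 : F y = (f ⟨y, hy⟩ : L') := hF1 ⟨y, hy⟩
    have e3 : G v = (g ⟨v, hv⟩ : L') := hG1 ⟨v, hv⟩
    have e4 : G w = (g ⟨w, hw⟩ : L') := hG1 ⟨w, hw⟩
    rw [e1, e2, e3, e4, c.bb, c'.bb]
    linear_combination 2 * h1
  refine ⟨F, G, hF2 _ _ c.nu.ne' (by ring), hG2 _ _ c.nu.ne' (by rw [c.bb, c'.bb]; ring), hT, ?_⟩
  refine hT.symm ?_ ?_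
  · rw [c.bb]
    positivity
  · rw [c.bb, c'.bb]
    ring

/-- Twice the long root is not a root. -/
theorem G2E.b2 (c : G2E θ b A τ α β) : β + β ∉ rootsL A := by
  intro h0
  obtain ⟨n, hn, -⟩ := refl c.h c.hA c.hτ c.ra h0
  have p := c.pos
  have e1 : α (τ β) = β (τ α) := tau_symm c.hτ α β
  have h1 := c.ba
  have h2 := c.bb
  rw [map_add τ, map_add α, LinearMap.add_apply, map_add β, e1] at hn
  have h3 : (2 * (n : ℝ) + 1) * (6 * α (τ α)) = 0 := by
    rw [h2] at hn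
    linear_combination 2 * h1 - hn
  rcases mul_eq_zero.1 h3 with h4 | h4
  · have h5 : (2 * n + 1 : ℤ) = 0 := by exact_mod_cast h4
    omega
  · linarith

/-- **Uniqueness of the simple Lie algebras with restricted roots of type `G_2`.** -/
theorem g2_iso [LieAlgebra.IsSimple ℝ L] [LieAlgebra.IsSimple ℝ L'] (c : G2E θ b A τ α β) (c' : G2E θ' b' A' τ' α' β')
    (hS : Smp A ![β, α]) (hS' : Smp A' ![β', α']) (hd : Module.finrank ℝ (rsp A α) = Module.finrank ℝ (rsp A' α')) :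
    ∃ e : L ≃ₗ⁅ℝ⁆ L', ∀ x, e (θ x) = θ' (e x) := by
  obtain ⟨F, G, hF, hG, h1, h2⟩ := g2_tc c c' hd
  have a0 : ∀ {φ : Module.Dual ℝ A}, φ ∈ rootsL A → φ + φ ≠ 0 := fun {φ} hφ h0 => hφ.1 (by
    have : φ = (1 / 2 : ℝ) • (φ + φ) := by module
    rw [this, h0, smul_zero])
  have a0' : ∀ {φ : Module.Dual ℝ A'}, φ ∈ rootsL A' → φ + φ ≠ 0 := fun {φ} hφ h0 => hφ.1 (by
    have : φ = (1 / 2 : ℝ) • (φ + φ) := by module
    rw [this, h0, smul_zero])
  have hFF : ∀ i, IsoOn θ θ' ((![β, α] : Fin 2 → Module.Dual ℝ A) i (τ ((![β, α] : Fin 2 → Module.Dual ℝ A) i)))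
      ((![β', α'] : Fin 2 → Module.Dual ℝ A') i (τ' ((![β', α'] : Fin 2 → Module.Dual ℝ A') i))) ((![β, α] : Fin 2 → Module.Dual ℝ A) i)
      ((![β', α'] : Fin 2 → Module.Dual ℝ A') i) ((![G, F] : Fin 2 → L →ₗ[ℝ] L') i) := by
    intro i
    fin_cases i
    · exact hG
    · exact hF
  obtain ⟨e, -, he⟩ := iso_tensor c.h c'.h c.hA c'.hA c.hτ c'.hτ hS hS' hFF (by
    intro i j
    fin_cases i <;> fin_cases j
    · exact tc_self (a0 c.rb) c.b2 (a0' c'.rb) c'.b2 hG.mem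
    · exact h2
    · exact h1
    · exact tc_self (a0 c.ra) c.aa (a0' c'.ra) c'.aa hF.mem)
  exact ⟨e, he⟩

end Two

/-- the relations follow from the list of the roots -/
theorem G2E.of_RL (h : CartanBasis θ b) (hA : MaxFlat θ A) (hτ : ∀ (φ : Module.Dual ℝ A) (a : A), killingForm ℝ L (τ φ : L) (a : L) = φ a)
    {al be : Module.Dual ℝ A} (hs : SimPair A al be) (hR : RL A al be lG2) : G2E θ b A τ be al := by
  have key : ∀ s t : ℝ, s • al + t • be ∈ rootsL A ↔ ∃ p ∈ lG2, (s = p.1 ∧ t = p.2) ∨ (s = -p.1 ∧ t = -p.2) := by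
    intro s t
    rw [hR]
    refine exists_congr fun p => and_congr_right fun _ => or_congr ?_ ?_
    · constructor
      · intro h1
        have h2 := hs.ind (s - p.1) (t - p.2) (by
          have : (s - p.1) • al + (t - p.2) • be = (s • al + t • be) - ((p.1 : ℝ) • al + (p.2 : ℝ) • be) := by module
          rw [this, h1, sub_self])
        exact ⟨by linarith [h2.1], by linarith [h2.2]⟩
      · rintro ⟨rfl, rfl⟩
        rfl
    · constructor
      · intro h1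
        have h2 := hs.ind (s + p.1) (t + p.2) (by
          have : (s + p.1) • al + (t + p.2) • be = (s • al + t • be) + ((p.1 : ℝ) • al + (p.2 : ℝ) • be) := by module
          rw [this, h1, neg_add_cancel])
        exact ⟨by linarith [h2.1], by linarith [h2.2]⟩
      · rintro ⟨rfl, rfl⟩
        module
  have ba : al (τ be) = be (τ al) := tau_symm hτ al be
  have pa : 0 < al (τ al) := tau_pos hτ h hA hs.ha.1
  have pb : 0 < be (τ be) := tau_pos hτ h hA hs.hb.1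
  have mem : ∀ p : ℕ × ℕ, p ∈ lG2 → p = (1, 0) ∨ p = (0, 1) ∨ p = (1, 1) ∨ p = (1, 2) ∨ p = (1, 3) ∨ p = (2, 3) := by
    intro p hp
    simpa [lG2] using hp
  -- `al + t be` is a root iff `t = 0, 1, 2, 3`
  have k1 : ∀ t : ℝ, al + t • be ∈ rootsL A → 0 ≤ t ∧ t ≤ 3 := by
    intro t ht
    have h1 := (key 1 t).1 (by rwa [one_smul])
    obtain ⟨p, hp, h2⟩ := h1
    rcases mem p hp with rfl | rfl | rfl | rfl | rfl | rfl <;> rcases h2 with ⟨h3, h4⟩ | ⟨h3, h4⟩ <;>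
      (push_cast at h3 h4) <;> first | (exfalso; linarith) | (constructor <;> linarith)
  have k2 : ∀ s : ℝ, s • al + be ∈ rootsL A → s = 0 ∨ s = 1 := by
    intro s hs'
    have h1 := (key s 1).1 (by rwa [one_smul])
    obtain ⟨p, hp, h2⟩ := h1
    rcases mem p hp with rfl | rfl | rfl | rfl | rfl | rfl <;> rcases h2 with ⟨h3, h4⟩ | ⟨h3, h4⟩ <;>
      (push_cast at h3 h4) <;> first | (exfalso; linarith) | exact Or.inl (by linarith) | exact Or.inr (by linarith)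
  have r3 : al + (3 : ℝ) • be ∈ rootsL A := by
    have := (key 1 3).2 ⟨(1, 3), by simp [lG2], Or.inl (by norm_num)⟩
    rwa [one_smul] at this
  obtain ⟨n, hn, hn'⟩ := refl h hA hτ hs.ha hs.hb
  obtain ⟨m, hm, hm'⟩ := refl h hA hτ r3 hs.hb
  obtain ⟨l, hl, hl'⟩ := refl h hA hτ hs.hb hs.ha
  have e1 := k1 (-(n : ℝ)) (by
    have : al + (-(n : ℝ)) • be = al - (n : ℝ) • be := by module
    rwa [this])
  have e2 := k1 (3 - (m : ℝ)) (by
    have : al + (3 - (m : ℝ)) • be = al + (3 : ℝ) • be - (m : ℝ) • be := by module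
    rwa [this])
  have e3 := k2 (-(l : ℝ)) (by
    have : (-(l : ℝ)) • al + be = be - (l : ℝ) • al := by module
    rwa [this])
  rw [LinearMap.add_apply, LinearMap.smul_apply, smul_eq_mul] at hm
  have e4 : (m : ℝ) = n + 6 := by
    have : be (τ be) * ((m : ℝ) - (n + 6)) = 0 := by linear_combination hn - hm
    rcases mul_eq_zero.1 this with h5 | h5
    · exact absurd h5 pb.ne'
    · linarith
  have e5 : (n : ℝ) = -3 := by linarith [e1.1, e1.2, e2.1, e2.2]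
  rw [e5] at hn
  have e6 : (l : ℝ) = -1 := by
    rcases e3 with h5 | h5
    · exfalso
      have h6 : (l : ℝ) = 0 := by linarith
      rw [h6, zero_mul, ← ba] at hl
      linarith
    · linarith
  rw [e6, ← ba] at hl
  refine ⟨h, hA, hτ, hs.hb, hs.ha, ?_, ?_, hn, by linarith⟩
  · intro h0
    have := (k1 (-1) (by
      have : al + (-1 : ℝ) • be = al - be := by module
      rwa [this])).1
    linarith
  · intro h0
    obtain ⟨p, hp, h2⟩ := (key 0 2).1 (by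
      have : (0 : ℝ) • al + (2 : ℝ) • be = be + be := by module
      rwa [this])
    rcases mem p hp with rfl | rfl | rfl | rfl | rfl | rfl <;> rcases h2 with ⟨h3, h4⟩ | ⟨h3, h4⟩ <;>
      (push_cast at h3 h4) <;> linarith

end Pool.Agent.Helper68.AE
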