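import Pool.Agent.Helper68.AE.G2N
import Pool.Agent.Helper68.AE.GenS
import Pool.Agent.Helper95.AE.EdB
import Pool.Agent.Helper25.AE.A2

/-!
# Two simple roots of a larger system: the local classification

`Pair A al be`: two independent roots such that the integral combinations which are roots have coefficients of one sign.
`Pair.cartan`: the Cartan integers of a non-orthogonal pair. `Pair.two`: Cartan integers `-2, -1` give `Two`. `Pair.cases`: the edge is of type `A_2`, `B_2`/`BC_2` or `G_2`.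
-/

set_option autoImplicit false

namespace Pool.Agent.Helper68.AE

open Pool.Agent.Helper96.SA Pool.Agent.Helper96.TO Pool.Agent.Helper69.SLN Pool.Agent.Helper77.TZ2 Pool.Agent.Helper77.LA
  Pool.Agent.Helper77.ST Pool.Agent.Helper95.AE Pool.Agent.Helper25.AE Pool.Agent.Helper77.AE

variable {L : Type} [LieRing L] [LieAlgebra ℝ L] {N : ℕ} {θ : L ≃ₗ⁅ℝ⁆ L} {b : Module.Basis (Fin N) ℝ L} {A : Submodule ℝ L}
  {al be : Module.Dual ℝ A}

/-- Two simple roots. -/
structure Pair (A : Submodule ℝ L) (al be : Module.Dual ℝ A) : Prop where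
  ha : al ∈ rootsL A
  hb : be ∈ rootsL A
  ind : ∀ s t : ℝ, s • al + t • be = 0 → s = 0 ∧ t = 0
  sgn : ∀ m n : ℤ, (m : ℝ) • al + (n : ℝ) • be ∈ rootsL A → (0 ≤ m ∧ 0 ≤ n) ∨ (m ≤ 0 ∧ n ≤ 0)

theorem Pair.symm (hs : Pair A al be) : Pair A be al where
  ha := hs.hb
  hb := hs.ha
  ind s t h := by
    rw [add_comm] at h
    exact (hs.ind t s h).symm
  sgn m n h := by
    rw [add_comm] at h
    have := hs.sgn n m h
    omega

/-- Two members of a simple system. -/
theorem pair_of {ι : Type} [Fintype ι] {al : ι → Module.Dual ℝ A} (hl : LinearIndependent ℝ al) (hr : ∀ i, al i ∈ rootsL A)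
    (hp : ∀ φ ∈ rootsL A, ∃ c : ι → ℕ, φ = ∑ i, (c i : ℝ) • al i ∨ φ = -∑ i, (c i : ℝ) • al i) {i j : ι} (hij : i ≠ j) :
    Pair A (al i) (al j) := by
  classical
  have h1 := Fintype.linearIndependent_iff.1 hl
  have hs : ∀ s t : ℝ, s • al i + t • al j = ∑ k, ((if k = i then s else 0) + (if k = j then t else 0)) • al k := by
    intro s t
    simp only [add_smul, Finset.sum_add_distrib, ite_smul, zero_smul, Finset.sum_ite_eq', Finset.mem_univ, if_true]
  refine ⟨hr i, hr j, fun s t h0 => ?_, fun m n h0 => ?_⟩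
  · rw [hs] at h0
    have h2 := h1 _ h0 i
    have h3 := h1 _ h0 j
    rw [if_pos rfl, if_neg hij, add_zero] at h2
    rw [if_pos rfl, if_neg (Ne.symm hij), zero_add] at h3
    exact ⟨h2, h3⟩
  · obtain ⟨c, hc⟩ := hp _ h0
    rw [hs] at hc
    rcases hc with hc | hc
    · have h2 : ∑ k, ((if k = i then (m : ℝ) else 0) + (if k = j then (n : ℝ) else 0) - c k) • al k = 0 := by
        simp only [ssm, Finset.sum_sub_distrib]
        rw [hc, sub_self]
      have h3 := h1 _ h2 i
      have h4 := h1 _ h2 j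
      rw [if_pos rfl, if_neg hij, add_zero] at h3
      rw [if_pos rfl, if_neg (Ne.symm hij), zero_add] at h4
      left
      have h5 : m = (c i : ℤ) := by
        have : (m : ℝ) = c i := by linarith
        exact_mod_cast this
      have h6 : n = (c j : ℤ) := by
        have : (n : ℝ) = c j := by linarith
        exact_mod_cast this
      omega
    · have h2 : ∑ k, ((if k = i then (m : ℝ) else 0) + (if k = j then (n : ℝ) else 0) + c k) • al k = 0 := by
        rw [← neg_add_cancel (∑ k, (c k : ℝ) • al k), ← hc, ← Finset.sum_add_distrib]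
        exact Finset.sum_congr rfl fun k _ => asm _ _ _
      have h3 := h1 _ h2 i
      have h4 := h1 _ h2 j
      rw [if_pos rfl, if_neg hij, add_zero] at h3
      rw [if_pos rfl, if_neg (Ne.symm hij), zero_add] at h4
      right
      have h5 : m = -(c i : ℤ) := by
        have : (m : ℝ) = -(c i : ℝ) := by linarith
        exact_mod_cast this
      have h6 : n = -(c j : ℤ) := by
        have : (n : ℝ) = -(c j : ℝ) := by linarith
        exact_mod_cast this
      omega

theorem Pair.d0 (hs : Pair A al be) : al - be ≠ 0 := by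
  intro h0
  have h1 := (hs.ind 1 (-1) (by
    rw [← h0]
    module)).1
  norm_num at h1

theorem Pair.d (hs : Pair A al be) : al - be ∉ rootsL A := by
  intro h0
  have h1 := hs.sgn 1 (-1) (by
    have : ((1 : ℤ) : ℝ) • al + ((-1 : ℤ) : ℝ) • be = al - be := by
      push_cast
      module
    rwa [this])
  omega

variable {τ : Module.Dual ℝ A ≃ₗ[ℝ] A}

/-- The Cartan integer of two simple roots. -/
theorem Pair.int (hs : Pair A al be) (h : CartanBasis θ b) (hA : MaxFlat θ A)
    (hτ : ∀ (φ : Module.Dual ℝ A) (a : A), killingForm ℝ L (τ φ : L) (a : L) = φ a) (h0 : al (τ be) ≠ 0) :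
    ∃ q : ℤ, 1 ≤ q ∧ 2 * al (τ be) = -(q * be (τ be)) := by
  obtain ⟨k, hk, hk2⟩ := refl h hA hτ hs.ha hs.hb
  have h1 : al - (k : ℝ) • be = ((1 : ℤ) : ℝ) • al + ((-k : ℤ) : ℝ) • be := by
    push_cast
    module
  rw [h1] at hk2
  have h2 := hs.sgn _ _ hk2
  refine ⟨-k, ?_, by push_cast; linarith⟩
  have h3 : k ≠ 0 := by
    intro h4
    rw [h4, Int.cast_zero, zero_mul] at hk
    exact h0 (by linarith)
  omega

/-- The Cartan integers of two simple roots. -/
theorem Pair.cartan (hs : Pair A al be) (h : CartanBasis θ b) (hA : MaxFlat θ A)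
    (hτ : ∀ (φ : Module.Dual ℝ A) (a : A), killingForm ℝ L (τ φ : L) (a : L) = φ a) (h0 : al (τ be) ≠ 0) :
    (2 * be (τ al) = -al (τ al) ∧ (2 * al (τ be) = -be (τ be) ∨ 2 * al (τ be) = -(2 * be (τ be)) ∨ 2 * al (τ be) = -(3 * be (τ be)))) ∨
      (2 * al (τ be) = -be (τ be) ∧ (2 * be (τ al) = -(2 * al (τ al)) ∨ 2 * be (τ al) = -(3 * al (τ al)))) := by
  have hba : be (τ al) = al (τ be) := tau_symm hτ be al
  have haa : 0 < al (τ al) := tau_pos hτ h hA hs.ha.1
  have hbb : 0 < be (τ be) := tau_pos hτ h hA hs.hb.1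
  obtain ⟨q, hq1, hq⟩ := hs.int h hA hτ h0
  obtain ⟨p, hp1, hp⟩ := hs.symm.int h hA hτ (by rw [hba]; exact h0)
  rw [hba] at hp
  have hv0 : (al (τ al)) • be - (al (τ be)) • al ≠ 0 := by
    intro h1
    have h2 := hs.ind (-(al (τ be))) (al (τ al)) (by
      rw [← h1]
      module)
    exact haa.ne' h2.2
  have hv := tau_pos hτ h hA hv0
  have hvv : ((al (τ al)) • be - (al (τ be)) • al) (τ ((al (τ al)) • be - (al (τ be)) • al)) =
      al (τ al) * (al (τ al) * be (τ be) - al (τ be) * al (τ be)) := by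
    simp only [map_sub, map_smul, LinearMap.sub_apply, LinearMap.smul_apply, smul_eq_mul, hba]
    ring
  rw [hvv] at hv
  have hcs : al (τ be) * al (τ be) < al (τ al) * be (τ be) := by
    have := pos_of_mul_pos_right hv haa.le
    linarith
  have hpq : p * q < 4 := by
    have h1 : (2 * al (τ be)) * (2 * al (τ be)) = (p * q) * (al (τ al) * be (τ be)) := by
      nth_rewrite 1 [hp]
      rw [hq]
      ring
    have h2 : ((p : ℝ) * q) * (al (τ al) * be (τ be)) < 4 * (al (τ al) * be (τ be)) := by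
      rw [← h1]
      linarith
    have h3 : (p : ℝ) * q < 4 := lt_of_mul_lt_mul_right h2 (mul_pos haa hbb).le
    exact_mod_cast h3
  have hp4 : p < 4 := by nlinarith
  have hq4 : q < 4 := by nlinarith
  have hcases : (p = 1 ∧ (q = 1 ∨ q = 2 ∨ q = 3)) ∨ (q = 1 ∧ (p = 2 ∨ p = 3)) := by
    interval_cases p <;> interval_cases q <;> simp_all
  rw [hba]
  rcases hcases with ⟨rfl, hq3⟩ | ⟨rfl, hp3⟩
  · left
    push_cast at hp
    refine ⟨by linarith, ?_⟩
    rcases hq3 with rfl | rfl | rfl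
    · left
      push_cast at hq
      linarith
    · right; left
      push_cast at hq
      linarith
    · right; right
      push_cast at hq
      linarith
  · right
    push_cast at hq
    refine ⟨by linarith, ?_⟩
    rcases hp3 with rfl | rfl
    · left
      push_cast at hp
      linarith
    · right
      push_cast at hp
      linarith

/-- Cartan integers `-2`, `-1`. -/
theorem Pair.two (hs : Pair A al be) (h : CartanBasis θ b) (hA : MaxFlat θ A)
    (hτ : ∀ (φ : Module.Dual ℝ A) (a : A), killingForm ℝ L (τ φ : L) (a : L) = φ a) (h1 : 2 * be (τ al) = -al (τ al))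
    (h2 : 2 * al (τ be) = -(2 * be (τ be))) : Two θ b A τ al be (be (τ be)) := by
  have haa : 0 < al (τ al) := tau_pos hτ h hA hs.ha.1
  have hbb : 0 < be (τ be) := tau_pos hτ h hA hs.hb.1
  have hba : be (τ al) = al (τ be) := tau_symm hτ be al
  have e1 : ∀ s t : ℝ, (s • al + t • be) (τ al) = s * al (τ al) + t * al (τ be) := by
    intro s t
    rw [LinearMap.add_apply, LinearMap.smul_apply, LinearMap.smul_apply, hba, smul_eq_mul, smul_eq_mul]
  have e2 : ∀ s t : ℝ, (s • al + t • be) (τ be) = s * al (τ be) + t * be (τ be) := by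
    intro s t
    rw [LinearMap.add_apply, LinearMap.smul_apply, LinearMap.smul_apply, smul_eq_mul, smul_eq_mul]
  rw [hba] at h1
  have g10 : ((1 : ℤ) : ℝ) • al + ((0 : ℤ) : ℝ) • be ∈ rootsL A := by
    rw [Int.cast_one, Int.cast_zero, one_smul, zero_smul, add_zero]
    exact hs.ha
  have g01 : ((0 : ℤ) : ℝ) • al + ((1 : ℤ) : ℝ) • be ∈ rootsL A := by
    rw [Int.cast_one, Int.cast_zero, one_smul, zero_smul, zero_add]
    exact hs.hb
  have gA : ∀ m n : ℤ, (m : ℝ) • al + (n : ℝ) • be ∈ rootsL A →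
      ((n - m : ℤ) : ℝ) • al + (n : ℝ) • be ∈ rootsL A := by
    intro m n hmn
    obtain ⟨k, hk, hk2⟩ := refl h hA hτ hmn hs.ha
    rw [e1] at hk
    have h3 : ((k : ℝ) - (2 * m - n)) * al (τ al) = 0 := by
      have h4 : 2 * ((m : ℝ) * al (τ al) + n * al (τ be)) = 2 * m * al (τ al) + n * (2 * al (τ be)) := by ring
      rw [h4, h1] at hk
      linarith
    have h5 : (k : ℝ) = 2 * m - n := by
      rcases mul_eq_zero.1 h3 with h6 | h6
      · linarith
      · exact absurd h6 haa.ne'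
    have h6 : (m : ℝ) • al + (n : ℝ) • be - (k : ℝ) • al = ((n - m : ℤ) : ℝ) • al + (n : ℝ) • be := by
      rw [h5]
      push_cast
      module
    rw [← h6]
    exact hk2
  have gB : ∀ m n : ℤ, (m : ℝ) • al + (n : ℝ) • be ∈ rootsL A →
      (m : ℝ) • al + ((2 * m - n : ℤ) : ℝ) • be ∈ rootsL A := by
    intro m n hmn
    obtain ⟨k, hk, hk2⟩ := refl h hA hτ hmn hs.hb
    rw [e2] at hk
    have h3 : ((k : ℝ) - (2 * n - 2 * m)) * be (τ be) = 0 := by
      have h4 : 2 * ((m : ℝ) * al (τ be) + n * be (τ be)) = m * (2 * al (τ be)) + 2 * n * be (τ be) := by ring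
      rw [h4, h2] at hk
      linarith
    have h5 : (k : ℝ) = 2 * n - 2 * m := by
      rcases mul_eq_zero.1 h3 with h6 | h6
      · linarith
      · exact absurd h6 hbb.ne'
    have h6 : (m : ℝ) • al + (n : ℝ) • be - (k : ℝ) • be = (m : ℝ) • al + ((2 * m - n : ℤ) : ℝ) • be := by
      rw [h5]
      push_cast
      module
    rw [← h6]
    exact hk2
  have gneg : ∀ m n : ℤ, (m : ℝ) • al + (n : ℝ) • be ∈ rootsL A →
      ((-m : ℤ) : ℝ) • al + ((-n : ℤ) : ℝ) • be ∈ rootsL A := by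
    intro m n hmn
    have h3 := neg_mem_rootsL hA hmn
    have h4 : -((m : ℝ) • al + (n : ℝ) • be) = ((-m : ℤ) : ℝ) • al + ((-n : ℤ) : ℝ) • be := by
      push_cast
      module
    rwa [h4] at h3
  have g00 : ¬ (((0 : ℤ) : ℝ) • al + ((0 : ℤ) : ℝ) • be ∈ rootsL A) := by
    rw [Int.cast_zero, zero_smul, zero_smul, add_zero]
    exact fun h3 => h3.1 rfl
  have gdiv : ∀ (γ : Module.Dual ℝ A), γ ∈ rootsL A → ∀ m : ℤ, 0 < m → (m : ℝ) • γ ∈ rootsL A → m = 1 ∨ m = 2 := by
    intro γ hγ m hm hmγ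
    have hm0 : (0 : ℝ) < m := by exact_mod_cast hm
    have hgg : 0 < γ (τ γ) := tau_pos hτ h hA hγ.1
    obtain ⟨k, hk, -⟩ := refl h hA hτ hγ hmγ
    simp only [map_smul, LinearMap.smul_apply, smul_eq_mul] at hk
    have h3 : ((k : ℝ) * m - 2) * (m * γ (τ γ)) = 0 := by linarith
    have h4 : (k : ℝ) * m = 2 := by
      rcases mul_eq_zero.1 h3 with h5 | h5
      · linarith
      · exact absurd h5 (mul_pos hm0 hgg).ne'
    have h5 : k * m = 2 := by exact_mod_cast h4
    have h6 : m ∣ 2 := Dvd.intro_left k h5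
    have h7 := Int.le_of_dvd (by norm_num) h6
    omega
  have gal : ∀ m : ℤ, 0 < m → ((m : ℝ) • al + ((0 : ℤ) : ℝ) • be ∈ rootsL A) → m = 1 := by
    intro m hm hmr
    rw [Int.cast_zero, zero_smul, add_zero] at hmr
    rcases gdiv al hs.ha m hm hmr with h3 | h3
    · exact h3
    · exfalso
      rw [h3] at hmr
      obtain ⟨k, hk, -⟩ := refl h hA hτ hs.hb hmr
      simp only [map_smul, LinearMap.smul_apply, smul_eq_mul, hba] at hk
      push_cast at hk
      have h4 : (2 * (k : ℝ) + 1) * al (τ al) = 0 := by linarith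
      rcases mul_eq_zero.1 h4 with h5 | h5
      · have h6 : 2 * k + 1 = 0 := by exact_mod_cast h5
        omega
      · exact absurd h5 haa.ne'
  have gbe : ∀ n : ℤ, 0 < n → (((0 : ℤ) : ℝ) • al + (n : ℝ) • be ∈ rootsL A) → n = 1 ∨ (n = 2 ∧ (2 : ℤ) = 2) := by
    intro n hn hnr
    rw [Int.cast_zero, zero_smul, zero_add] at hnr
    rcases gdiv be hs.hb n hn hnr with h3 | h3
    · exact Or.inl h3
    · exact Or.inr ⟨h3, rfl⟩
  have hE := enum (P := fun m n : ℤ => (m : ℝ) • al + (n : ℝ) • be ∈ rootsL A) (q := 2) (by decide) g10 g01 gneg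
    hs.sgn gA gB g00 gal gbe
  refine ⟨h, hA, hτ, hs.ind, ⟨hbb, rfl, by linarith, by rw [hba]; linarith, by linarith⟩, fun m n hB h3 => ?_⟩
  have h4 : InL lBC2 m n := by
    rcases hE with ⟨h4, -⟩ | ⟨-, h4⟩ | ⟨-, h4⟩ | ⟨h4, -⟩
    · omega
    · obtain ⟨p, hp, hp2⟩ := (h4 m n).1 h3
      refine ⟨p, ?_, hp2⟩
      simp only [lB2, List.mem_cons, List.not_mem_nil, or_false] at hp
      rcases hp with rfl | rfl | rfl | rfl <;> decide
    · exact (h4 m n).1 h3
    · omega
  obtain ⟨p, hp, hp2⟩ := h4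
  have h5 := hB p hp
  rcases hp2 with ⟨h6, h7⟩ | ⟨h6, h7⟩
  · exact h5.1 ⟨h6.symm, h7.symm⟩
  · exact h5.2 ⟨h6.symm, h7.symm⟩

/-- Cartan integers `-1`, `-1`. -/
theorem Pair.a2 (hs : Pair A al be) (hτ : ∀ (φ : Module.Dual ℝ A) (a : A), killingForm ℝ L (τ φ : L) (a : L) = φ a)
    (h1 : 2 * be (τ al) = -al (τ al)) (h2 : 2 * al (τ be) = -be (τ be)) : A2E A τ al be := by
  have hba : be (τ al) = al (τ be) := tau_symm hτ be al
  exact ⟨hs.ha, hs.hb, hs.d0, hs.d, h1, by rw [hba] at h1; linarith⟩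

/-- Cartan integers `-3`, `-1`. -/
theorem Pair.g2 (hs : Pair A al be) (h : CartanBasis θ b) (hA : MaxFlat θ A)
    (hτ : ∀ (φ : Module.Dual ℝ A) (a : A), killingForm ℝ L (τ φ : L) (a : L) = φ a) (h1 : 2 * be (τ al) = -al (τ al))
    (h2 : 2 * al (τ be) = -(3 * be (τ be))) : G2E θ b A τ be al :=
  G2E.of_cartan h hA hτ hs.hb hs.ha hs.d (by linarith) (by linarith)

/-- **The local classification.** -/
theorem Pair.cases (hs : Pair A al be) (h : CartanBasis θ b) (hA : MaxFlat θ A)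
    (hτ : ∀ (φ : Module.Dual ℝ A) (a : A), killingForm ℝ L (τ φ : L) (a : L) = φ a) (h0 : al (τ be) ≠ 0) :
    A2E A τ al be ∨ Two θ b A τ al be (be (τ be)) ∨ Two θ b A τ be al (al (τ al)) ∨ G2E θ b A τ be al ∨ G2E θ b A τ al be := by
  rcases hs.cartan h hA hτ h0 with ⟨h1, h2 | h2 | h2⟩ | ⟨h1, h2 | h2⟩
  · exact Or.inl (hs.a2 hτ h1 h2)
  · exact Or.inr (Or.inl (hs.two h hA hτ h1 h2))
  · exact Or.inr (Or.inr (Or.inr (Or.inl (hs.g2 h hA hτ h1 h2))))
  · exact Or.inr (Or.inr (Or.inl (hs.symm.two h hA hτ h1 h2)))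
  · exact Or.inr (Or.inr (Or.inr (Or.inr (hs.symm.g2 h hA hτ h1 h2))))

end Pool.Agent.Helper68.AE
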